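import Pool.Agent.Work.MP_d018b2_nt.M.Fin

/-! The centred weights at two different forms are almost orthogonal. -/

set_option autoImplicit false
open Finset Filter

namespace Pool.Agent.Work.MP_d018b2_nt.Z

open Pool.Agent.Work.MP_678620_nt Pool.Agent.Work.MP_51e72e_nt Pool.Agent.Work.MP_d018b2_nt.M

/-- The weight of a prime times `k` primes of `E`. -/
noncomputable def GG (z : ℝ) (E : Finset ℕ) (k : ℕ) (u : ℤ) : ℂ :=
  if wE E u = k then conv (bE 1 E) (gam z 1 w1) u else 0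

/-- The centred weight. -/
noncomputable def gg (z : ℝ) (E : Finset ℕ) (k : ℕ) (u : ℤ) : ℂ :=
  if wE E u = k then conv (bE 1 E) (gam z 1 w1) u - conv (bE 1 E) (flat z 1 w1) u else 0

lemma conv_scale {z : ℝ} {E : Finset ℕ} {a : ℕ} (ha : 0 < a) (haz : (a : ℝ) ≤ z)
    (hE : ∀ p ∈ E, (p : ℝ) ≤ z) {γ : ℕ → ℝ} (hγ : ∀ m, γ m ≠ 0 → Rou z m) (u : ℤ) :
    conv (bE a E) γ (a * u) = conv (bE 1 E) γ u := by
  rcases le_or_gt u 0 with k | k
  · rw [conv_nonpos _ _ k, conv_nonpos _ _ (mul_nonpos_of_nonneg_of_nonpos (by positivity) k)]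
  · lift u to ℕ using k.le
    have u0 : u ≠ 0 := by omega
    have := TB_conv (a := 1) one_pos (le_trans (by exact_mod_cast ha) haz) hE u0 hγ
    rw [Nat.cast_one, one_mul] at this
    rw [TB_conv ha haz hE u0 hγ, this]

lemma reix {z : ℝ} {E : Finset ℕ} {a1 a2 : ℕ} (N j j' : ℕ) (b1 b2 : ℤ) (p1 : 0 < a1) (p2 : 0 < a2)
    (z1 : (a1 : ℝ) ≤ z) (hE : ∀ p ∈ E, p.Prime ∧ a1 < p ∧ a2 < p ∧ (p : ℝ) ≤ z) (F : ℤ → ℂ) :
    ∑ m ∈ Ioc ((a1 * a2 * N : ℕ) : ℤ) (2 * (a1 * a2 * N : ℕ)),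
      (if wE E m = j ∧ m ≡ a2 * b1 [ZMOD (a1 * a2 : ℕ)] then F m else 0) *
      (if wE E (m + (a1 * b2 - a2 * b1)) = j' then
        conv (bE a1 E) (gam z 1 w1) (m + (a1 * b2 - a2 * b1))
          - conv (bE a1 E) (flat z 1 w1) (m + (a1 * b2 - a2 * b1)) else 0)
    = ∑ q ∈ Ioc (N + -b1 / a1 : ℤ) (2 * N + -b1 / a1),
        (if wE E (a1 * q + b1) = j then F (a2 * (a1 * q + b1)) else 0) * gg z E j' (a2 * q + b2) := by
  have e : ∀ m : ℤ, ∀ (x w : Prop) [Decidable x] [Decidable w] (t s : ℂ),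
      (if x ∧ w then t else 0) * s = if w then (if x then t else 0) * s else 0 := by
    intro _ x w _ _ t s
    by_cases c1 : x <;> by_cases c3 : w <;> simp [c1, c3]
  have ez : ∀ p ∈ E, (p : ℝ) ≤ z := fun p hp => (hE p hp).2.2.2
  rw [sum_congr rfl fun m _ => e m _ _ _ _, TB_reindex N b1 p1 p2,
    show (N + -b1 / a1 + N : ℤ) = 2 * N + -b1 / a1 by ring]
  refine sum_congr rfl fun q _ => ?_
  have t1 : (a2 * (a1 * q + b1) + (a1 * b2 - a2 * b1) : ℤ) = a1 * (a2 * q + b2) := by ring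
  rw [t1, TB_wE p2 fun p hp => ⟨(hE p hp).1, (hE p hp).2.2.1⟩,
    TB_wE p1 fun p hp => ⟨(hE p hp).1, (hE p hp).2.1⟩,
    conv_scale p1 z1 ez fun n hn => (gam_supp (TB_dat p1 z1 ez) n hn).1,
    conv_scale p1 z1 ez fun n hn => (flat_supp n hn).1, gg]

/-- Moving the interval of summation. -/
lemma shift_ev (A B : ℕ) : ∀ᶠ X : ℕ in atTop, ∀ (a1 a2 : ℕ) (b1 b2 : ℤ),
    Lin (Real.log X ^ A) a1 a2 b1 b2 → ∀ f g : ℤ → ℂ,
    (∀ u : ℤ, u ≤ (X : ℤ) ^ 3 → ‖f u‖ ≤ Real.log X ^ 3 ∧ ‖g u‖ ≤ Real.log X ^ 3) →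
    ‖∑ q ∈ Ioc (X + -b1 / a1 : ℤ) (2 * X + -b1 / a1), f (a1 * q + b1) * g (a2 * q + b2)
      - ∑ q ∈ Ioc (X : ℤ) (2 * X), f (a1 * q + b1) * g (a2 * q + b2)‖ ≤ X / Real.log X ^ B := by
  filter_upwards [SPTwo_log, ev_lin 400 (2 * A + (B + 6)), eventually_gt_atTop 0]
    with X hl g2 X0 a1 a2 b1 b2 hL f g hf
  generalize Real.log X = l at *
  have l1 : 1 ≤ l := by linarith only [hl]
  have B1 : 1 ≤ l ^ A := hL.B_ge
  have B2 : l ^ (2 * A) = (l ^ A) ^ 2 := by rw [mul_comm, pow_mul]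
  have B4 : 0 < (l ^ A) ^ 2 := by positivity
  have l4 : 1 ≤ l ^ (B + 6) := one_le_pow₀ l1
  have X1 : (1 : ℝ) ≤ X := by exact_mod_cast X0
  have BB : l ^ A ≤ (l ^ A) ^ 2 := le_self_pow₀ B1 two_ne_zero
  rw [pow_add, B2] at g2
  have BX : 400 * (l ^ A) ^ 2 ≤ X := by
    linarith only [g2, B4, l4, le_mul_of_one_le_right B4.le l4]
  have ed := (TB_ediv a1 b1).trans hL.b1_le
  have sz : ∀ (a : ℕ) (b m : ℤ), (a : ℝ) ≤ l ^ A → |(b : ℝ)| ≤ l ^ A →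
      m ≤ max (X : ℤ) (2 * X) + |-b1 / a1| → a * m + b ≤ (X : ℤ) ^ 3 := fun a b m h1 h2 h3 => by
    rw [max_eq_right (by omega)] at h3
    have h4 : (m : ℝ) ≤ 2 * X + |((-b1 / a1 : ℤ) : ℝ)| := by exact_mod_cast h3
    have h5 : (a : ℝ) * m ≤ l ^ A * (3 * X) :=
      (mul_le_mul_of_nonneg_left (h4.trans (by linarith only [B4, BB, BX, ed])) (Nat.cast_nonneg a)).trans
        (mul_le_mul_of_nonneg_right h1 (by linarith only [B4, BX]))
    have h6 : (X : ℝ) ^ 2 ≤ X ^ 3 := pow_le_pow_right₀ X1 (by norm_num)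
    have h8 := mul_le_mul_of_nonneg_right (show 4 * l ^ A ≤ X by linarith only [B4, BB, BX])
      (zero_le_one.trans X1)
    have h9 := le_mul_of_one_le_right (zero_le_one.trans B1) X1
    have h7 : (a : ℝ) * m + b ≤ X ^ 3 := by
      linarith only [h5, h6, h8, h9, h2, le_abs_self (b : ℝ)]
    exact_mod_cast h7
  refine (SPTwo_shift (fun q => f (a1 * q + b1) * g (a2 * q + b2)) X (2 * X)
    (-b1 / a1) (B := l ^ 3 * l ^ 3) (by positivity) fun m hm => ?_).trans ?_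
  · rw [norm_mul]
    exact mul_le_mul (hf _ (sz _ _ _ hL.a1_le hL.b1_le hm)).1
      (hf _ (sz _ _ _ hL.a2_le hL.b2_le hm)).2 (norm_nonneg _) (by positivity)
  · rw [le_div_iff₀ (by positivity)]
    calc _ ≤ 8 * (l ^ A) ^ 2 * (l ^ 3 * l ^ 3) * l ^ B := by gcongr; exact ed.trans BB
      _ = 8 * ((l ^ A) ^ 2 * l ^ (B + 6)) := by ring
      _ ≤ _ := by linarith only [g2, mul_pos B4 (zero_lt_one.trans_le l4)]

lemma gg_ev {c : ℝ} : ∀ᶠ X : ℕ in atTop, ∀ E : Finset ℕ, Eok X c E → ∀ (k : ℕ) (u : ℤ),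
    u ≤ (X : ℤ) ^ 3 → ‖GG (zz X) E k u‖ ≤ Real.log X ^ 3 ∧ ‖gg (zz X) E k u‖ ≤ Real.log X ^ 3 := by
  filter_upwards [conv_bound, zz_big 0, SPTwo_log] with X CB hz hl E hE k u hu
  have H := CB 1 _ _ (TB_dat (a := 1) one_pos (by simpa using hz.1)
    fun p hp => (SPTwo_small hE hl p hp).2) u hu
  have l0 : 0 ≤ Real.log X ^ 3 := pow_nonneg (by linarith only [hl]) 3
  unfold GG gg
  split_ifs
  exacts [⟨H.1, H.2.2⟩, by simpa using l0]

theorem off0 (A B : ℕ) {c : ℝ} (hc : 0 < c) : ∃ k0 : ℕ, ∀ k : ℕ, 1 ≤ k → k0 ≤ k →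
    ∀ᶠ X : ℕ in atTop, ∀ E : Finset ℕ, Eok X c E → ∀ (a1 a2 : ℕ) (b1 b2 : ℤ),
    Lin (Real.log X ^ A) a1 a2 b1 b2 →
    ‖∑ q ∈ Ioc (X : ℤ) (2 * X), (starRingEnd ℂ) (gg (zz X) E k (a1 * q + b1)) *
        gg (zz X) E k (a2 * q + b2)‖ ≤ 2 * (X / Real.log X ^ B) := by
  obtain ⟨k0, H⟩ := R.one_point (2 * A + (B + 1)) 1 le_rfl hc
  refine ⟨k0, fun k k1 hk => ?_⟩
  filter_upwards [H, shift_ev A B, gg_ev (c := c), conv_bound, zz_big A, SPTwo_log,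
    (Real.tendsto_log_atTop.comp TB_tend).eventually_ge_atTop k,
    TB_ev_exp 3 (2 * A) hc, ev_lin 1 (2 * A), eventually_gt_atTop 0]
    with X H Sh hg CB hz hl hkl g1 g2 X0 E hE a1 a2 b1 b2 hL
  have hs := SPTwo_small hE hl
  have Sh := Sh a1 a2 b1 b2 hL (fun u => (starRingEnd ℂ) (gg (zz X) E k u)) (gg (zz X) E k)
    fun u hu => ⟨by rw [Complex.norm_conj]; exact (hg E hE k u hu).2, (hg E hE k u hu).2⟩
  obtain ⟨E1, E2, E3, E4⟩ := id hE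
  simp only [Function.comp] at hkl
  clear hg
  generalize Real.log X = l at *
  generalize zz X = z at *
  have l1 : 1 ≤ l := by linarith only [hl]
  have t0 : 0 ≤ Real.log l := Real.log_nonneg l1
  have B1 : 1 ≤ l ^ A := hL.B_ge
  have B2 : l ^ (2 * A) = (l ^ A) ^ 2 := by rw [mul_comm, pow_mul]
  have B4 : 0 < (l ^ A) ^ 2 := by positivity
  have B3 : ∀ k, l ^ (2 * A + k) = (l ^ A) ^ 2 * l ^ k := fun k => by rw [pow_add, B2]
  have l6 : l ≤ l ^ (B + 1) := le_self_pow₀ l1 (by omega)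
  have big : ∀ p ∈ E, 2 * (l ^ A) ^ 2 < p := fun p hp => by linarith only [g1, B2, B4, E2 p hp]
  have aa : ((a1 * a2 : ℕ) : ℝ) ≤ (l ^ A) ^ 2 := by
    rw [Nat.cast_mul, sq]; exact mul_le_mul hL.a1_le hL.a2_le (Nat.cast_nonneg _) (by linarith only [B1])
  have pa : 0 < a1 * a2 := mul_pos hL.a1_pos hL.a2_pos
  have z1 := hL.a1_le.trans hz.1
  have z2 := hL.a2_le.trans hz.1
  have ez : ∀ p ∈ E, (p : ℝ) ≤ z := fun p hp => (hs p hp).2
  have kk : (k : ℝ) ≤ (2 * A + (B + 1) : ℕ) * Real.log l := by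
    have := mul_nonneg (Nat.cast_nonneg (α := ℝ) A) t0
    have := mul_nonneg (Nat.cast_nonneg (α := ℝ) B) t0
    push_cast; linarith
  have d2 := TB_dat hL.a2_pos z2 ez
  have i2 := TB_inv hL.a2_pos fun p hp => ⟨E1 p hp, (hL.big (big p hp)).2.1⟩
  have T := H (a1 * a2 * X) ((Nat.le_mul_of_pos_left X pa).trans
    (Nat.le_self_pow two_ne_zero _)) (by
      rw [sq]
      exact Nat.mul_le_mul_right _ (by exact_mod_cast (aa.trans (by linarith only [B2, g2]) : _ ≤ (X : ℝ))))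
    E hE k k k1 hk kk kk (a1 * b2 - a2 * b1) (a2 * b1) (a1 * a2) (sub_ne_zero.mpr hL.det)
    (hL.det_le.trans (by rw [B3]; linarith only [B4, hl, l6, mul_le_mul_of_nonneg_left (hl.trans l6) B4.le]))
    pa (aa.trans (by rw [B3]; exact le_mul_of_one_le_right B4.le (l1.trans l6)))
    (fun n => (starRingEnd ℂ) (conv (bE a2 E) (gam z 1 w1) n - conv (bE a2 E) (flat z 1 w1) n))
    (fun n hn => by rw [Complex.norm_conj]; exact (CB 1 _ _ d2 n hn).2.2)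
    (fun p hp n => by
      simp only [conv_mul d2.β_supp (fun n hn => (gam_supp d2 n hn).1) (E1 p hp) (ez p hp) (i2 p hp) n,
        conv_mul d2.β_supp (γ := flat z 1 w1) (fun n hn => (flat_supp n hn).1) (E1 p hp) (ez p hp)
          (i2 p hp) n])
    _ _ (TB_dat hL.a1_pos z1 ez) (TB_inv hL.a1_pos fun p hp => ⟨E1 p hp, (hL.big (big p hp)).1⟩)
  rw [reix X k k b1 b2 hL.a1_pos hL.a2_pos z1 fun p hp =>
    ⟨E1 p hp, (hL.big (big p hp)).1, (hL.big (big p hp)).2.1, ez p hp⟩] at T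
  have e : ∀ u : ℤ, (if wE E u = k then (starRingEnd ℂ) (conv (bE a2 E) (gam z 1 w1) (a2 * u) -
      conv (bE a2 E) (flat z 1 w1) (a2 * u)) else 0) = (starRingEnd ℂ) (gg z E k u) := fun u => by
    rw [conv_scale hL.a2_pos z2 ez fun n hn => (gam_supp d2 n hn).1,
      conv_scale hL.a2_pos z2 ez fun n hn => (flat_supp n hn).1, gg]
    split_ifs <;> simp
  simp only [e] at T
  have u1 : ((a1 * a2 * X : ℕ) : ℝ) / l ^ (2 * A + (B + 1) + 1) ≤ X / l ^ B := by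
    rw [add_assoc, B3, Nat.cast_mul, div_le_div_iff₀ (by positivity) (by positivity)]
    have v1 : l ^ B ≤ l ^ (B + 1 + 1) := pow_le_pow_right₀ l1 (by omega)
    calc _ ≤ (l ^ A) ^ 2 * X * l ^ (B + 1 + 1) := by gcongr
      _ = _ := by ring
  rw [norm_sub_rev] at Sh
  linarith only [T, Sh, u1, norm_le_insert' (∑ q ∈ Ioc (X : ℤ) (2 * X),
    (starRingEnd ℂ) (gg z E k (a1 * q + b1)) * gg z E k (a2 * q + b2))
    (∑ q ∈ Ioc (X + -b1 / a1 : ℤ) (2 * X + -b1 / a1),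
    (starRingEnd ℂ) (gg z E k (a1 * q + b1)) * gg z E k (a2 * q + b2))]

end Pool.Agent.Work.MP_d018b2_nt.Z
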