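import Pool.Agent.Work.MP_d018b2_nt.Z.Cnt
import Pool.Agent.Work.MP_d018b2_nt.Z.Off
import Pool.Agent.Work.MP_678620_nt.TBFin

/-! Few forms correlate with the primes of a given form. -/

set_option autoImplicit false
open Finset Filter

namespace Pool.Agent.Work.MP_d018b2_nt.Z

open Pool.Agent.Work.MP_678620_nt Pool.Agent.Work.MP_51e72e_nt Pool.Agent.Work.MP_d018b2_nt.M

/-- The ratio of `a` and its totient. -/
noncomputable def Wt (a : ℕ) : ℝ := a * (a.totient : ℝ)⁻¹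

lemma Wt_ge {a : ℕ} (ha : 0 < a) : 1 ≤ Wt a := by
  have t0 : (0 : ℝ) < a.totient := by exact_mod_cast Nat.totient_pos.2 ha
  rw [Wt, ← div_eq_mul_inv, one_le_div t0]
  exact_mod_cast Nat.totient_le a

lemma pt_one {z l h1 : ℝ} {E : Finset ℕ} {k : ℕ} {u : ℤ} (z1 : 1 ≤ z) (vl : (Vz z)⁻¹ ≤ l)
    (hE : ∀ p ∈ E, p.Prime ∧ (p : ℝ) ≤ z ∧ Real.log p ≤ h1) (hu : 0 < u)
    (hlo : (1 - 1 / 2) * l + k * h1 ≤ Real.log u) (hhi : Real.log u ≤ (1 + 1 / 2) * l)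
    (hz : Real.log z < (1 - 1 / 2) * l) :
    ‖GG z E k u‖ ≤ 2 * l ∧ (GG z E k u ≠ 0 → PE E k u ∨ SqE E u) ∧
      ‖gg z E k u‖ ^ 2 ≤ 4 * l ^ 2 * (if SqE E u then 1 else 0) +
        4 * l ^ 2 * (if PE E k u then 1 else 0) +
        (Vz z)⁻¹ ^ 2 * (if RE z E k u ∧ ¬ SqE E u then 1 else 0) := by
  obtain ⟨G, Φ, e1, e2, g0, g1, f0, f1, h⟩ := TB_single (a := 1) (k := k) one_pos (by simpa using z1)
    (fun p hp => ⟨(hE p hp).1, (hE p hp).1.one_lt, (hE p hp).2⟩) hu hlo hhi hz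
  rw [Nat.cast_one, one_mul] at e1 e2
  have e3 : GG z E k u = G := e1
  have e4 : gg z E k u = ((G - Φ : ℝ) : ℂ) := by
    rw [Complex.ofReal_sub, ← e1, ← e2, gg]
    split_ifs <;> simp
  have v0 := (inv_pos.2 (Vz_pos z)).le
  have l0 := v0.trans vl
  rw [e3, e4, Complex.norm_real, Complex.norm_real, Real.norm_of_nonneg g0, Real.norm_eq_abs, sq_abs]
  refine ⟨by linarith only [g1, l0], fun k1 => ?_, ?_⟩
  · by_contra k2
    rw [not_or] at k2
    exact k1 (by rw [(h k2.2).2.1 k2.1, Complex.ofReal_zero])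
  · have a1 : (G - Φ) ^ 2 ≤ G ^ 2 + Φ ^ 2 := by linarith only [mul_nonneg g0 f0]
    have a2 := pow_le_pow_left₀ g0 g1 2
    have a3 := pow_le_pow_left₀ f0 f1 2
    have a4 := pow_le_pow_left₀ v0 vl 2
    have a5 := sq_nonneg l
    by_cases s : SqE E u
    · rw [if_pos s, if_neg (show ¬ (RE z E k u ∧ ¬ SqE E u) from fun t => t.2 s)]
      split_ifs <;> linarith only [a1, a2, a3, a4, a5]
    · obtain ⟨-, b1, -, b2⟩ := h s
      have c1 : G ^ 2 ≤ 4 * l ^ 2 * (if PE E k u then 1 else 0) := by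
        split_ifs with t
        · linarith only [a2, a5]
        · rw [b1 t]; simp
      have c2 : Φ ^ 2 ≤ (Vz z)⁻¹ ^ 2 * (if RE z E k u ∧ ¬ SqE E u then 1 else 0) := by
        split_ifs with t
        · linarith only [a3]
        · rw [b2 fun r => t ⟨r, s⟩]; simp
      rw [if_neg s]
      linarith only [a1, c1, c2]

lemma cnt_ev (A k : ℕ) {c : ℝ} (hc : 0 < c) : ∀ᶠ X : ℕ in atTop, ∀ E : Finset ℕ, Eok X c E →
    ∀ φ, Pf (Real.log X ^ A) φ → ∀ W : ℝ, W = Wt φ.1 →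
    (∀ q ∈ Ioc (X : ℤ) (2 * X), ‖GG (zz X) E k (φ.1 * q + φ.2)‖ ≤ 2 * Real.log X) ∧
    (((Ioc (X : ℤ) (2 * X)).filter fun q => GG (zz X) E k (φ.1 * q + φ.2) ≠ 0).card : ℝ) ≤
      258 * (ek E k + 1) * W * (X / Real.log X) ∧
    ∑ q ∈ Ioc (X : ℤ) (2 * X), ‖gg (zz X) E k (φ.1 * q + φ.2)‖ ^ 2 ≤
      1033 * ek E k * W * (X * Real.log X) + 4 * X := by
  filter_upwards [size_ev A (show (0 : ℝ) < 1 / 4 by norm_num), Vz_inv_le, TE.scales, TB_mertens,
    TE.rpow_le_rpow_log (4 * (k + 1)) (show (1 / 4 : ℝ) < 1 by norm_num),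
    TE.rpow_le_rpow_log 32 (show (24 / 25 : ℝ) < 1 by norm_num),
    TB_tend.eventually_ge_atTop 448, TB_ev_exp 2 A hc, TB_ev_exp 2 3 hc,
    TB_ev_exp 2 2 (show (0 : ℝ) < 1 / 4 by norm_num), eventually_gt_atTop 0]
    with X sz hV hs hM g1 g2 hl g3 g4 g5 X0 E hE φ h W hW
  obtain ⟨-, -, z2, -, -, -, hq⟩ := hs
  obtain ⟨E1, E2, E3, -⟩ := hE
  have X1 : (0 : ℝ) < X := by exact_mod_cast X0
  have eX : Real.exp (Real.log X) = X := Real.exp_log X1
  have ez : Real.log (zz X) = Real.log X ^ (24 / 25 : ℝ) := Real.log_exp _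
  have sz := sz φ h
  rw [Real.rpow_one] at g1 g2
  have H0 := Real.exp_pos (Real.log X ^ c)
  generalize Real.log X = l at *
  generalize zz X = z at *
  have l0 : 0 < l := by linarith only [hl]
  have q0 := Real.rpow_nonneg l0.le (1 / 4 : ℝ)
  generalize l ^ (1 / 4 : ℝ) = q at *
  generalize Real.exp (l ^ c) = H at *
  have k0 : (0 : ℝ) ≤ k := Nat.cast_nonneg k
  have kq := mul_nonneg k0 q0
  have E4 : ∀ p ∈ E, Real.log p ≤ q := fun p hp =>
    (Real.log_le_iff_le_exp (by exact_mod_cast (E1 p hp).pos)).mpr (E3 p hp)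
  have lg : ∀ n ∈ Ioc (X : ℤ) (2 * X), 0 < φ.1 * n + φ.2 ∧
      3 / 4 * l ≤ Real.log (φ.1 * n + φ.2 : ℤ) ∧ Real.log (φ.1 * n + φ.2 : ℤ) ≤ 5 / 4 * l :=
    fun n hn => by
      obtain ⟨-, -, d2, -, d3⟩ := sz n hn
      rw [← Int.cast_natCast, Int.toNat_of_nonneg d2.le, abs_le] at d3
      exact ⟨d2, by linarith only [d3.1], by linarith only [d3.2]⟩
  have pt := fun n hn => pt_one (k := k) (by linarith only [z2]) hV
    (fun p hp => ⟨E1 p hp, (E3 p hp).trans hq, E4 p hp⟩) (lg n hn).1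
    (by linarith only [(lg n hn).2.1, g1, q0]) (by linarith only [(lg n hn).2.2, l0])
    (by linarith only [ez, g2, l0])
  have a0 : (0 : ℝ) < φ.1 := by exact_mod_cast h.1
  have W1 : 1 ≤ W := hW ▸ Wt_ge h.1
  have hW' : φ.1 * (φ.1.totient : ℝ)⁻¹ ≤ W := hW.ge
  have x4 : l ≤ Real.exp (l / 4) := by
    have a := Real.add_one_le_exp (l / 8)
    have b := mul_le_mul a a (by linarith only [l0]) (Real.exp_pos _).le
    rw [← Real.exp_add, show l / 8 + l / 8 = l / 4 by ring] at b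
    nlinarith only [b, hl]
  have hd : ∀ S ∈ E.powersetCard k, ((∏ p ∈ S, p : ℕ) : ℝ) ≤ X ∧
      Real.exp (l / 8) ^ 4 * l * (∏ p ∈ S, p : ℕ) ≤ X := fun S hS => by
    have d0 : 0 < ∏ p ∈ S, p := prod_pos fun p hp => (E1 p ((mem_powersetCard.1 hS).1 hp)).pos
    have a := (TB_log_cof (fun p hp => ⟨E1 p hp, E4 p hp⟩) hS d0.ne' (mul_one _)).1
    rw [Nat.cast_one, Real.log_one] at a
    have b : ((∏ p ∈ S, p : ℕ) : ℝ) ≤ Real.exp (l / 4) :=
      (Real.log_le_iff_le_exp (by exact_mod_cast d0)).1 (by linarith only [a, g1, q0])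
    refine ⟨b.trans (eX ▸ Real.exp_le_exp.2 (by linarith only [l0])), ?_⟩
    calc _ ≤ Real.exp (l / 8) ^ 4 * Real.exp (l / 4) * Real.exp (l / 4) := by gcongr
      _ = _ := by
        rw [← Real.exp_nat_mul, ← Real.exp_add, ← Real.exp_add, ← eX]
        congr 1; push_cast; ring
  have z8 : 1 < Real.exp (l / 8) := Real.one_lt_exp_iff.2 (by linarith only [l0])
  have y1 : 1 ≤ Real.exp (l / 32) := Real.one_le_exp (by linarith only [l0])
  have e0 := ek_nonneg E k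
  have C1 := cnt_sum y1 z8 (by rw [Real.log_exp, Real.log_exp]; linarith only [hl]) l0 h.1 h.2.2.2
    hW' E1 hd X (fun n => PE E k (φ.1 * n + φ.2)) fun n hn k1 =>
      RS_of_PE (Real.exp_pos _) (fun p hp => ⟨E1 p hp, E4 p hp⟩) (by
        rw [Real.log_exp]
        linarith only [(lg n (two_mul (X : ℤ) ▸ hn)).2.1, g1, q0, l0]) k1
  have C2 := cnt_sum (show 1 ≤ z by linarith only [z2]) z8
    (by rw [Real.log_exp]; linarith only [hl, ez, g2]) l0 h.1 h.2.2.2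
    hW' E1 hd X (fun n => RE z E k (φ.1 * n + φ.2) ∧ ¬ SqE E (φ.1 * n + φ.2)) fun n _ k1 =>
      RS_of_RE E1 k1.1 k1.2
  have C3 := TB_sq H0 h.1 φ.2 (fun p hp => ⟨E1 p hp, by
    exact_mod_cast (show (φ.1 : ℝ) < p by linarith only [h.2.1, g3, E2 p hp, a0]), E2 p hp⟩) X X
  rw [← two_mul] at C1 C2 C3
  have C4 : (((Ioc (X : ℤ) (2 * X)).filter fun n => SqE E (φ.1 * n + φ.2)).card : ℝ) ≤ X / l ^ 2 := by
    have a : ∑ p ∈ E, (p : ℝ)⁻¹ ≤ l := by
      refine ((sum_le_sum_of_subset_of_nonneg (fun p hp => (mem_PZ (by linarith only [z2])).mpr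
        ⟨E1 p hp, (E3 p hp).trans hq⟩) fun _ _ _ => by positivity).trans hM).trans ?_
      have := Real.log_le_sub_one_of_pos (show 0 < l / 4 by positivity)
      rw [Real.log_div l0.ne' four_ne_zero] at this
      linarith only [this, hl, Real.log_le_sub_one_of_pos four_pos]
    have b : X * (∑ p ∈ E, (p : ℝ)⁻¹) / H ≤ X / l ^ 2 / 2 := by
      calc _ ≤ X * l / (2 * l ^ 3) := by gcongr
        _ = _ := by field_simp
    have d : (E.card : ℝ) ≤ X / l ^ 2 / 2 := by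
      rw [div_div, le_div_iff₀ (by positivity)]
      calc _ ≤ Real.exp q * Real.exp q :=
            mul_le_mul (TB_card_E (Real.exp_pos q).le fun p hp => ⟨E1 p hp, E3 p hp⟩)
              (by linarith only [g5]) (by positivity) (Real.exp_pos q).le
        _ ≤ _ := by
          rw [← Real.exp_add, ← eX, Real.exp_le_exp]
          linarith only [g1, kq, q0]
    linarith only [C3, b, d]
  have V1 : Vz (Real.exp (l / 32)) ≤ 64 / l := by
    rw [← inv_le_inv₀ (by positivity) (Vz_pos _), inv_div]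
    refine le_trans ?_ ((TE.log_floor_ge y1).trans (Vz_inv_ge _))
    rw [Real.log_exp]
    linarith only [hl, Real.log_two_lt_d9]
  have l1 : 1 ≤ l := by linarith only [hl]
  have C5 : (((Ioc (X : ℤ) (2 * X)).filter fun n => PE E k (φ.1 * n + φ.2)).card : ℝ) ≤
      257 * ek E k * W * (X / l) := by
    refine C1.trans ?_
    calc _ ≤ ek E k * X * (4 * (64 / l) * W + W * l⁻¹) := by
          gcongr; exact le_mul_of_one_le_left (by positivity) W1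
      _ = _ := by field_simp; ring
  have C6 : (Vz z)⁻¹ ^ 2 * (((Ioc (X : ℤ) (2 * X)).filter fun n => RE z E k (φ.1 * n + φ.2) ∧
      ¬ SqE E (φ.1 * n + φ.2)).card : ℝ) ≤ 5 * ek E k * W * (X * l) := by
    have V0 := Vz_pos z
    refine (mul_le_mul_of_nonneg_left C2 (sq_nonneg _)).trans ?_
    calc _ = ek E k * X * (4 * (Vz z)⁻¹ * W + (Vz z)⁻¹ ^ 2 * l⁻¹) := by field_simp
      _ ≤ ek E k * X * (4 * l * W + W * l ^ 2 * l⁻¹) := by
          gcongr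
          exact (pow_le_pow_left₀ (by positivity) hV 2).trans (le_mul_of_one_le_left (by positivity) W1)
      _ = _ := by field_simp; ring
  have x1 : (X : ℝ) / l ^ 2 ≤ W * (X / l) :=
    (div_le_div_of_nonneg_left X1.le l0 (le_self_pow₀ l1 two_ne_zero)).trans
      (le_mul_of_one_le_left (by positivity) W1)
  have x2 : 0 ≤ ek E k * W * (X / l) := by positivity
  have x3 : 0 ≤ W * (X / l) := by positivity
  refine ⟨fun n hn => (pt n hn).1, ?_, ?_⟩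
  · have a := (Nat.cast_le (α := ℝ)).2 ((card_le_card (s := (Ioc (X : ℤ) (2 * X)).filter fun q =>
      GG z E k (φ.1 * q + φ.2) ≠ 0) (t := ((Ioc (X : ℤ) (2 * X)).filter fun n =>
        PE E k (φ.1 * n + φ.2)) ∪ (Ioc (X : ℤ) (2 * X)).filter fun n => SqE E (φ.1 * n + φ.2))
      fun n hn => by
        obtain ⟨k1, k2⟩ := mem_filter.1 hn
        rw [← filter_or]
        exact mem_filter.2 ⟨k1, (pt n k1).2.1 k2⟩).trans (card_union_le _ _))
    rw [Nat.cast_add] at a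
    linarith only [a, C4, C5, x1, x2, x3]
  · have a := sum_le_sum fun n hn => (pt n hn).2.2
    simp only [sum_add_distrib, ← mul_sum, sum_boole] at a
    have b := mul_le_mul_of_nonneg_left C4 (show 0 ≤ 4 * l ^ 2 by positivity)
    have d := mul_le_mul_of_nonneg_left C5 (show 0 ≤ 4 * l ^ 2 by positivity)
    rw [show 4 * l ^ 2 * (X / l ^ 2) = 4 * X by field_simp] at b
    rw [show 4 * l ^ 2 * (257 * ek E k * W * (X / l)) = 1028 * ek E k * W * (X * l) by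
      field_simp; ring] at d
    linarith only [a, b, d, C6]

theorem few (A : ℕ) {c : ℝ} (hc : 0 < c) : ∃ k0 : ℕ, ∀ k : ℕ, k0 ≤ k → ∀ τ : ℝ, 0 < τ →
    ∀ᶠ X : ℕ in atTop, ∀ E : Finset ℕ, Eok X c E → ek E k ≤ Real.log X ^ 2 ∧
    ∀ φ, Pf (Real.log X ^ A) φ →
    ∀ S : Finset (ℕ × ℤ), (∀ ψ ∈ S, Pf (Real.log X ^ A) ψ ∧ φ ≠ ψ ∧
      τ * (Wt φ.1 * Wt ψ.1) * ek E k * X ≤
      ‖∑ m ∈ Ioc ((φ.1 * ψ.1 * X : ℕ) : ℤ) (2 * (φ.1 * ψ.1 * X : ℕ)),
      (if wE E m = 0 ∧ m ≡ ψ.1 * φ.2 [ZMOD (φ.1 * ψ.1 : ℕ)] then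
        conv (bE ψ.1 E) (gam (zz X) 1 w1) m else 0) *
        (if wE E (m + (φ.1 * ψ.2 - ψ.1 * φ.2)) = k then
          conv (bE φ.1 E) (gam (zz X) 1 w1) (m + (φ.1 * ψ.2 - ψ.1 * φ.2))
            - conv (bE φ.1 E) (flat (zz X) 1 w1) (m + (φ.1 * ψ.2 - ψ.1 * φ.2)) else 0)‖) →
    τ ^ 2 * ek E k * S.card ≤ 2 * 10 ^ 7 * Real.log X ^ 2 := by
  obtain ⟨k0, H⟩ := off0 A 3 hc
  refine ⟨k0 + 1, fun k hk τ τ0 => ?_⟩
  obtain ⟨κ, κ0, hκ⟩ := TB_ev_ek 0 k hc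
  filter_upwards [H k (by omega) (by omega), cnt_ev A k hc, cnt_ev A 0 hc, shift_ev A 1,
    gg_ev (c := c), zz_big A, SPTwo_log, TB_ev_exp 3 (2 * A) hc, TB_mertens,
    TB_tend.eventually_ge_atTop (2 / (τ * κ)), TB_tend.eventually_ge_atTop (64 / (τ * κ) ^ 2),
    TE.LL_tendsto.eventually_ge_atTop 72, TB_tend.eventually_ge_atTop (4 / κ), hκ,
    eventually_gt_atTop 0]
    with X H c1 c0 Sh hg hz hl g1 hM g2 g3 g4 g5 hκ X0 E hE
  have hs := SPTwo_small hE hl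
  have he := hκ E hE
  rw [show ek E 0 = 1 from esym_zero _ _, one_mul] at he
  unfold TE.LL at g4
  refine ⟨?_, fun φ h S hS => ?_⟩
  · have a : ∑ p ∈ E, (p : ℝ)⁻¹ ≤ (2 : ℕ) * Real.log (Real.log X) :=
      ((sum_le_sum_of_subset_of_nonneg (fun p hp => (mem_PZ (Real.exp_pos _).le).mpr
        (hs p hp)) fun _ _ _ => by positivity).trans hM).trans (by push_cast; linarith only [g4])
    refine (esym_le_exp (fun _ _ => by positivity) k).trans ((Real.exp_le_exp.2 a).trans_eq ?_)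
    rw [Real.exp_nat_mul, Real.exp_log (by linarith only [hl])]
  obtain ⟨p1, p2, -⟩ := c0 E hE φ h _ rfl
  have c1 := fun ψ hψ => (c1 E hE ψ (hS ψ hψ).1 _ rfl).2.2
  have H := fun ψ hψ ψ' hψ' hne => H E hE _ _ _ _ ((hS ψ hψ).1.lin (hS ψ' hψ').1 hne)
  have Sh := fun ψ hψ => Sh _ _ _ _ (h.lin (hS ψ hψ).1 (hS ψ hψ).2.1) (GG (zz X) E 0)
    (gg (zz X) E k) fun u hu => ⟨(hg E hE 0 u hu).1, (hg E hE k u hu).2⟩
  obtain ⟨E1, E2, E3, -⟩ := hE
  have X1 : (0 : ℝ) < X := by exact_mod_cast X0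
  have W1 := Wt_ge h.1
  have W2 := fun ψ hψ => Wt_ge (hS ψ hψ).1.1
  clear hg c0 hκ hM g4
  generalize Real.log X = l at *
  generalize zz X = z at *
  generalize Wt φ.1 = W at *
  have l0 : 0 < l := by linarith only [hl]
  have e0 := κ0.trans_le he
  have ez : ∀ p ∈ E, (p : ℝ) ≤ z := fun p hp => (hs p hp).2
  have z1 := h.2.1.trans hz.1
  have big : ∀ p ∈ E, 2 * (l ^ A) ^ 2 < p := fun p hp => by
    rw [mul_comm 2 A, pow_mul] at g1
    linarith only [g1, E2 p hp, show 0 < (l ^ A) ^ 2 by positivity]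
  obtain ⟨P, hP⟩ : ∃ P, P = (Ioc (X : ℤ) (2 * X)).filter fun q => GG z E 0 (φ.1 * q + φ.2) ≠ 0 :=
    ⟨_, rfl⟩
  obtain ⟨α, hα⟩ : ∃ α : ℤ → ℂ, α = fun q => if q ∈ Ioc (X : ℤ) (2 * X) then
    ((2 * l)⁻¹ : ℝ) * GG z E 0 (φ.1 * q + φ.2) else 0 := ⟨_, rfl⟩
  have i0 : 0 ≤ (2 * l)⁻¹ := by positivity
  have i1 : ∀ ψ ∈ S, ‖(((Wt ψ.1)⁻¹ : ℝ) : ℂ)‖ = (Wt ψ.1)⁻¹ ∧ (Wt ψ.1)⁻¹ ≤ 1 := fun ψ hψ =>
    ⟨by rw [Complex.norm_real, Real.norm_of_nonneg (inv_nonneg.2 (zero_le_one.trans (W2 ψ hψ)))],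
      inv_le_one_of_one_le₀ (W2 ψ hψ)⟩
  have t1 : τ * κ ≤ τ * W * ek E k := by
    rw [mul_assoc]
    exact mul_le_mul_of_nonneg_left (he.trans (le_mul_of_one_le_left e0.le W1)) τ0.le
  have hT : ∀ ψ ∈ S, τ * W * ek E k * X / (4 * l) ≤
      ‖∑ q ∈ P, α q * (((Wt ψ.1)⁻¹ : ℝ) * gg z E k (ψ.1 * q + ψ.2))‖ := fun ψ hψ => by
    obtain ⟨k1, k2, k3⟩ := hS ψ hψ
    have hL := h.lin k1 k2
    have z2 := k1.2.1.trans hz.1
    have w2 := W2 ψ hψ
    rw [reix X 0 k φ.2 ψ.2 h.1 k1.1 z1 fun p hp =>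
      ⟨E1 p hp, (hL.big (big p hp)).1, (hL.big (big p hp)).2.1, ez p hp⟩] at k3
    simp only [conv_scale k1.1 z2 ez fun n hn => (gam_supp (TB_dat k1.1 z2 ez) n hn).1] at k3
    have e : ∑ q ∈ P, α q * (((Wt ψ.1)⁻¹ : ℝ) * gg z E k (ψ.1 * q + ψ.2)) =
        ((2 * l)⁻¹ : ℝ) * (((Wt ψ.1)⁻¹ : ℝ) *
        ∑ q ∈ Ioc (X : ℤ) (2 * X), GG z E 0 (φ.1 * q + φ.2) * gg z E k (ψ.1 * q + ψ.2)) := by
      rw [hP, sum_filter, mul_sum, mul_sum]
      refine sum_congr rfl fun q hq => ?_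
      rw [hα]
      simp only [if_pos hq]
      split_ifs with k4
      · ring
      · rw [not_not.1 k4]; ring
    rw [e, norm_mul, norm_mul, (i1 ψ hψ).1, Complex.norm_real, Real.norm_of_nonneg i0,
      show τ * W * ek E k * X / (4 * l) = (2 * l)⁻¹ * ((Wt ψ.1)⁻¹ *
        (τ * (W * Wt ψ.1) * ek E k * X / 2)) by field_simp; ring]
    refine mul_le_mul_of_nonneg_left (mul_le_mul_of_nonneg_left ?_ (by positivity)) i0
    have a := Sh ψ hψ
    have b : (X : ℝ) / l ^ 1 ≤ τ * (W * Wt ψ.1) * ek E k * X / 2 := by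
      rw [pow_one, div_le_iff₀ l0]
      have u1 := (div_le_iff₀ (mul_pos τ0 κ0)).1 g2
      have u2 := t1.trans (le_mul_of_one_le_right ((mul_pos τ0 κ0).le.trans t1) w2)
      have u3 := mul_le_mul_of_nonneg_left (u1.trans (mul_le_mul_of_nonneg_left u2 l0.le)) X1.le
      linarith only [u3]
    have d := k3.trans (norm_le_insert' _ (∑ q ∈ Ioc (X : ℤ) (2 * X),
      GG z E 0 (φ.1 * q + φ.2) * gg z E k (ψ.1 * q + ψ.2)))
    unfold GG at a d ⊢
    linarith only [a, b, d]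
  have PI : P ⊆ Ioc (X : ℤ) (2 * X) := hP ▸ filter_subset _ _
  have Be := bessel S PI α (fun q => by
      rw [hα]
      dsimp only
      split_ifs with hq
      · rw [norm_mul, Complex.norm_real, Real.norm_of_nonneg i0, inv_mul_le_iff₀ (by positivity),
          mul_one]
        exact p1 q hq
      · simp) (fun ψ q => ((Wt ψ.1)⁻¹ : ℝ) * gg z E k (ψ.1 * q + ψ.2))
    (D := 1034 * ek E k * (X * l)) (by positivity)
    (show (0 : ℝ) ≤ 2 * (X / l ^ 3) by positivity) hT (fun ψ hψ => by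
      have w2 := W2 ψ hψ
      simp only [norm_mul, (i1 ψ hψ).1, mul_pow, ← mul_sum]
      refine (mul_le_mul_of_nonneg_left (c1 ψ hψ) (sq_nonneg _)).trans ?_
      have u1 := mul_le_mul_of_nonneg_left (((div_le_iff₀ κ0).1 g5).trans
        (mul_le_mul_of_nonneg_left he l0.le)) X1.le
      have u2 := mul_le_of_le_one_left (show 0 ≤ 1033 * ek E k * (X * l) by positivity) (i1 ψ hψ).2
      have u3 := mul_le_of_le_one_left (show (0 : ℝ) ≤ 4 * X by positivity)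
        (pow_le_one₀ (n := 2) (by positivity) (i1 ψ hψ).2)
      rw [mul_add, show (Wt ψ.1)⁻¹ ^ 2 * (1033 * ek E k * Wt ψ.1 * (X * l)) =
        (Wt ψ.1)⁻¹ * (1033 * ek E k * (X * l)) by field_simp]
      linarith only [u1, u2, u3]) fun ψ hψ ψ' hψ' hne => by
      have e : ∀ q : ℤ, (starRingEnd ℂ) (((Wt ψ.1)⁻¹ : ℝ) * gg z E k (ψ.1 * q + ψ.2)) *
          (((Wt ψ'.1)⁻¹ : ℝ) * gg z E k (ψ'.1 * q + ψ'.2)) = ((Wt ψ.1)⁻¹ : ℝ) * (((Wt ψ'.1)⁻¹ : ℝ) *
          ((starRingEnd ℂ) (gg z E k (ψ.1 * q + ψ.2)) * gg z E k (ψ'.1 * q + ψ'.2))) := fun q => by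
        rw [map_mul, Complex.conj_ofReal]; ring
      simp only [e, ← mul_sum]
      rw [norm_mul, norm_mul, (i1 ψ hψ).1, (i1 ψ' hψ').1]
      exact (mul_le_of_le_one_left (mul_nonneg (inv_nonneg.2 (zero_le_one.trans (W2 ψ' hψ')))
        (norm_nonneg _)) (i1 ψ hψ).2).trans
        ((mul_le_of_le_one_left (norm_nonneg _) (i1 ψ' hψ').2).trans (H ψ hψ ψ' hψ' hne))
  have F := bes_num (Nat.cast_nonneg _) (by positivity) (by
    have a : (P.card : ℝ) ≤ X := by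
      have := card_le_card PI
      rw [Int.card_Ioc, show (2 * X - X : ℤ) = X by ring, Int.toNat_natCast] at this
      exact_mod_cast this
    calc _ ≤ X * (2 * (X / l ^ 3)) := by gcongr
      _ = (τ * κ * X / (4 * l)) ^ 2 / 2 * (64 / (τ * κ) ^ 2 / l) := by field_simp; ring
      _ ≤ (τ * κ * X / (4 * l)) ^ 2 / 2 :=
          mul_le_of_le_one_right (by positivity) ((div_le_one l0).2 g3)
      _ ≤ _ := by gcongr) Be
  rw [← hP, show ek E 0 = 1 from esym_zero _ _] at p2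
  have W0 : 0 < W := zero_lt_one.trans_le W1
  refine le_of_mul_le_mul_right ?_ (show 0 < W * ek E k * (X / (4 * l)) ^ 2 by positivity)
  calc _ ≤ W * (τ ^ 2 * ek E k * S.card * (W * ek E k * (X / (4 * l)) ^ 2)) :=
        le_mul_of_one_le_left (by positivity) W1
    _ = S.card * (τ * W * ek E k * X / (4 * l)) ^ 2 := by ring
    _ ≤ 2 * (258 * (1 + 1) * W * (X / l) * (1034 * ek E k * (X * l))) := F.trans (by gcongr)
    _ = 17073408 * l ^ 2 * (W * ek E k * (X / (4 * l)) ^ 2) := by field_simp; ring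
    _ ≤ _ := by gcongr; norm_num

end Pool.Agent.Work.MP_d018b2_nt.Z
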