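import Pool.Agent.Work.MP_d018b2_nt.M.Fin
import Pool.Agent.Work.MP_d018b2_nt.R.PSum

/-! Upper bounds for the number of values of a form that are a rough number times `k` small primes. -/

set_option autoImplicit false
open Finset Filter

namespace Pool.Agent.Work.MP_d018b2_nt.Z

open Pool.Agent.Work.MP_678620_nt Pool.Agent.Work.MP_51e72e_nt Pool.Agent.Work.MP_d018b2_nt.M

/-- `u` is `d` times an integer without prime factors up to `y`. -/
def RS (y : ℝ) (d : ℕ) (u : ℤ) : Prop := (d : ℤ) ∣ u ∧ ∀ p ∈ PZ y, ¬ (p : ℤ) ∣ u / d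

noncomputable instance (y : ℝ) (d : ℕ) (u : ℤ) : Decidable (RS y d u) := Classical.propDecidable _

lemma prod_le_tot (y : ℝ) {a : ℕ} (ha : 0 < a) {c : ℤ} :
    ∏ p ∈ PZ y, (1 - (((range p).filter fun r : ℕ => (p : ℤ) ∣ a * r + c).card : ℝ) / p) ≤
      Vz y * (a * (a.totient : ℝ)⁻¹) := by
  have f0 : ∀ p : ℕ, p.Prime → 0 ≤ 1 - (p : ℝ)⁻¹ ∧ 1 - (p : ℝ)⁻¹ ≤ 1 := fun p hp =>
    ⟨sub_nonneg.2 (inv_le_one_of_one_le₀ (by exact_mod_cast hp.one_le)),
      sub_le_self _ (by positivity)⟩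
  have g0 : ∀ p : ℕ, p.Prime →
      0 ≤ 1 - (((range p).filter fun r : ℕ => (p : ℤ) ∣ a * r + c).card : ℝ) / p := fun p hp => by
    rw [sub_nonneg, div_le_one (by exact_mod_cast hp.pos)]
    exact_mod_cast (card_filter_le _ _).trans_eq (card_range p)
  have a0 : (0 : ℝ) < a := by exact_mod_cast ha
  have t0 : (0 : ℝ) < a.totient := by exact_mod_cast Nat.totient_pos.2 ha
  have e2 : (a.totient : ℝ) = a * ∏ p ∈ a.primeFactors, (1 - (p : ℝ)⁻¹) := by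
    have := congrArg (Rat.cast : ℚ → ℝ) (Nat.totient_eq_mul_prod_factors a)
    push_cast at this
    exact this
  have h1 : ∏ p ∈ PZ y, (1 - (((range p).filter fun r : ℕ => (p : ℤ) ∣ a * r + c).card : ℝ) / p) ≤
      ∏ p ∈ (PZ y).filter (¬ · ∣ a), (1 - (p : ℝ)⁻¹) := by
    rw [prod_filter]
    refine prod_le_prod (fun p hp => g0 p (PZ_prime hp)) fun p hp => ?_
    split_ifs with k
    · exact sub_le_self _ (by positivity)
    · rw [TB_root (PZ_prime hp) fun k' => k (Int.natCast_dvd_natCast.1 k'), Nat.cast_one, one_div]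
  have h2 : ∏ p ∈ a.primeFactors, (1 - (p : ℝ)⁻¹) ≤
      ∏ p ∈ (PZ y).filter (· ∣ a), (1 - (p : ℝ)⁻¹) :=
    prod_le_prod_of_subset_of_le_one (fun p hp => Nat.mem_primeFactors.2
      ⟨PZ_prime (mem_filter.1 hp).1, (mem_filter.1 hp).2, ha.ne'⟩)
      (fun p hp => (f0 p (Nat.prime_of_mem_primeFactors hp)).1)
      fun p hp _ => (f0 p (Nat.prime_of_mem_primeFactors hp)).2
  have h3 : Vz y = (∏ p ∈ (PZ y).filter (· ∣ a), (1 - (p : ℝ)⁻¹)) *
      ∏ p ∈ (PZ y).filter (¬ · ∣ a), (1 - (p : ℝ)⁻¹) := by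
    rw [prod_filter_mul_prod_filter_not]; rfl
  have h4 : 0 ≤ ∏ p ∈ (PZ y).filter (¬ · ∣ a), (1 - (p : ℝ)⁻¹) :=
    prod_nonneg fun p hp => (f0 p (PZ_prime (mem_filter.1 hp).1)).1
  refine h1.trans ?_
  rw [← mul_assoc, ← div_eq_mul_inv, le_div_iff₀ t0, e2, h3]
  have := mul_le_mul_of_nonneg_left h2 (mul_nonneg h4 a0.le)
  linarith only [this]

lemma cnt_one {y z : ℝ} (hy : 1 ≤ y) (hz : 1 < z) (h : 2 * (Real.log y + 14) ≤ Real.log z)
    {a d : ℕ} {b : ℤ} (ha : 0 < a) (hd : 0 < d) (cop : IsCoprime (a : ℤ) b) (α : ℤ) (N : ℕ) :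
    (((Ioc α (α + N)).filter fun n => RS y d (a * n + b)).card : ℝ) ≤
      2 * (N / d + 1) * (Vz y * (a * (a.totient : ℝ)⁻¹)) + z ^ 4 := by
  have V0 : 0 ≤ Vz y * (a * (a.totient : ℝ)⁻¹) := mul_nonneg (Vz_pos y).le (by positivity)
  obtain ⟨U, hU⟩ : ∃ U, U = (Ioc α (α + N)).filter fun n => RS y d (a * n + b) := ⟨_, rfl⟩
  rw [← hU]
  rcases U.eq_empty_or_nonempty with e | ne
  · rw [e, card_empty, Nat.cast_zero]; positivity
  obtain ⟨n0, m0, hm⟩ := U.exists_min_image id ne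
  have mU : ∀ n ∈ U, (α < n ∧ n ≤ α + N) ∧ RS y d (a * n + b) := fun n hn => by
    rw [hU, mem_filter, mem_Ioc] at hn; exact hn
  obtain ⟨c, hc⟩ := (mU n0 m0).2.1
  have d0 : (0 : ℤ) < d := by exact_mod_cast hd
  have c1 : IsCoprime (a : ℤ) (d * c) := by
    rw [← hc, add_comm]; exact cop.add_mul_left_right n0
  have c2 : IsCoprime (a : ℤ) (c - a) := by
    have := (c1.of_mul_right_right).add_mul_left_right (-1)
    rwa [mul_neg_one, ← sub_eq_add_neg] at this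
  have key : ∀ n ∈ U, ∃ t : ℕ, n = n0 + d * t ∧ t ≤ N / d := fun n hn => by
    have k1 : (d : ℤ) ∣ a * (n - n0) := by
      have := dvd_sub (mU n hn).2.1 (mU n0 m0).2.1
      rwa [show (a * n + b - (a * n0 + b) : ℤ) = a * (n - n0) by ring] at this
    obtain ⟨t, ht⟩ := c1.of_mul_right_left.symm.dvd_of_dvd_mul_left k1
    have k2 : n0 ≤ n := hm n hn
    have t0 : 0 ≤ t := nonneg_of_mul_nonneg_right (by omega : 0 ≤ (d : ℤ) * t) |> fun f => by
      by_contra k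
      have := mul_neg_of_pos_of_neg d0 (not_le.1 k)
      omega
    lift t to ℕ using t0
    refine ⟨t, by omega, (Nat.le_div_iff_mul_le hd).2 ?_⟩
    have k3 := (mU n hn).1
    have k4 := (mU n0 m0).1
    have : (t : ℤ) * d ≤ N := by rw [mul_comm]; omega
    exact_mod_cast this
  choose! t ht using key
  have H := sieve_up hy (fun p => (range p).filter fun r : ℕ => (p : ℤ) ∣ a * r + (c - a)) (k := 1)
    (fun p hp => ⟨filter_subset _ _, (TB_root_le hp c2).trans_lt hp.one_lt, TB_root_le hp c2⟩) hz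
    (by rw [Nat.cast_one, mul_one]; exact h) 0 (N / d + 1)
  refine le_trans (Nat.cast_le.2 (card_le_card_of_injOn (fun n => t n + 1) (fun n hn => ?_)
    fun n hn n' hn' e => ?_)) (H.trans (add_le_add_left ?_ _))
  · obtain ⟨k1, k2⟩ := ht n hn
    refine mem_coe.2 (mem_filter.2 ⟨mem_Ioc.2 ⟨by simp, by simpa using k2⟩, fun p hp k => ?_⟩)
    refine (mU n hn).2.2 p hp ?_
    have e : (a * n + b : ℤ) = d * (a * ((t n + 1 : ℕ) : ℤ) + (c - a)) := by
      rw [k1]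
      push_cast
      rw [← k1]
      linear_combination hc + a * k1
    rw [e, Int.mul_ediv_cancel_left _ d0.ne']
    have k3 := (mem_filter.1 k).2
    rw [Int.natCast_mod] at k3
    exact (((Int.mod_modEq _ _).mul_left _).add_right _).dvd_iff.1 k3
  · have e' : t n = t n' := Nat.succ_injective e
    rw [(ht n hn).1, (ht n' hn').1, e']
  · refine mul_le_mul ?_ (prod_le_tot y ha) (prod_nonneg fun p hp => ?_) (by positivity)
    · push_cast
      linarith only [Nat.cast_div_le (α := ℝ) (m := N) (n := d)]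
    · rw [sub_nonneg, div_le_one (by exact_mod_cast (PZ_prime hp).pos)]
      exact_mod_cast (card_filter_le _ _).trans_eq (card_range p)

lemma cnt_sum {y z l W : ℝ} (hy : 1 ≤ y) (hz : 1 < z) (h : 2 * (Real.log y + 14) ≤ Real.log z)
    (l0 : 0 < l) {a k N : ℕ} {b : ℤ} (ha : 0 < a) (cop : IsCoprime (a : ℤ) b)
    (hW : a * (a.totient : ℝ)⁻¹ ≤ W) {E : Finset ℕ} (hE : ∀ p ∈ E, p.Prime)
    (hd : ∀ S ∈ E.powersetCard k, ((∏ p ∈ S, p : ℕ) : ℝ) ≤ N ∧ z ^ 4 * l * (∏ p ∈ S, p : ℕ) ≤ N)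
    (α : ℤ) (Q : ℤ → Prop) [DecidablePred Q]
    (hQ : ∀ n ∈ Ioc α (α + N), Q n → ∃ S ∈ E.powersetCard k, RS y (∏ p ∈ S, p) (a * n + b)) :
    (((Ioc α (α + N)).filter Q).card : ℝ) ≤ ek E k * N * (4 * Vz y * W + l⁻¹) := by
  have h1 : (Ioc α (α + N)).filter Q ⊆ (E.powersetCard k).biUnion fun S =>
      (Ioc α (α + N)).filter fun n => RS y (∏ p ∈ S, p) (a * n + b) := fun n hn => by
    obtain ⟨k1, k2⟩ := mem_filter.1 hn
    obtain ⟨S, hS, k3⟩ := hQ n k1 k2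
    exact mem_biUnion.2 ⟨S, hS, mem_filter.2 ⟨k1, k3⟩⟩
  refine (Nat.cast_le.2 ((card_le_card h1).trans card_biUnion_le)).trans ?_
  rw [Nat.cast_sum, ek, esym, sum_mul, sum_mul]
  refine sum_le_sum fun S hS => ?_
  have d0 : 0 < ∏ p ∈ S, p := prod_pos fun p hp => (hE p ((mem_powersetCard.1 hS).1 hp)).pos
  refine (cnt_one hy hz h ha d0 cop α N).trans ?_
  obtain ⟨k1, k2⟩ := hd S hS
  rw [prod_inv_distrib, ← Nat.cast_prod]
  generalize ∏ p ∈ S, p = d at *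
  have d1 : (0 : ℝ) < d := by exact_mod_cast d0
  have V0 := Vz_pos y
  have k3 : 1 ≤ (N : ℝ) / d := by rwa [le_div_iff₀ d1, one_mul]
  have k4 : z ^ 4 ≤ N / d * l⁻¹ := by
    rw [← div_eq_mul_inv, div_div, le_div_iff₀ (by positivity)]
    linarith only [k2]
  have k5 : 2 * ((N : ℝ) / d + 1) * (Vz y * (a * (a.totient : ℝ)⁻¹)) ≤ 2 * (N / d + N / d) * (Vz y * W) := by
    gcongr
  rw [show (d : ℝ)⁻¹ * N = N / d by rw [div_eq_inv_mul]]
  linarith only [k4, k5]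

lemma RS_of_PE {y h1 : ℝ} (hy : 0 < y) {E : Finset ℕ} {k : ℕ} {u : ℤ}
    (hE : ∀ p ∈ E, p.Prime ∧ Real.log p ≤ h1) (hu : Real.log y + k * h1 < Real.log u)
    (h : PE E k u) : ∃ S ∈ E.powersetCard k, RS y (∏ p ∈ S, p) u := by
  obtain ⟨p, hp, S, hS, e⟩ := h
  have d0 : 0 < ∏ p ∈ S, p := prod_pos fun p hp => (hE p ((mem_powersetCard.1 hS).1 hp)).1.pos
  have e' : u = ((∏ q ∈ S, q) * p : ℕ) := by rw [e]; push_cast; ring
  have a := (TB_log_cof hE hS (mul_pos d0 hp.pos).ne' (rfl : (∏ q ∈ S, q) * p = _)).1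
  rw [e', Int.cast_natCast] at hu
  have b : y < p := (Real.log_lt_log_iff hy (by exact_mod_cast hp.pos)).1 (by linarith only [a, hu])
  refine ⟨S, hS, ?_, fun q hq k => ?_⟩
  · rw [e', Nat.cast_mul]; exact dvd_mul_right _ _
  · rw [e', Nat.cast_mul, Int.mul_ediv_cancel_left _ (by exact_mod_cast d0.ne'),
      Int.natCast_dvd_natCast, Nat.prime_dvd_prime_iff_eq (PZ_prime hq) hp] at k
    have := ((mem_PZ hy.le).1 hq).2
    rw [k] at this
    exact absurd b (not_lt.2 this)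

lemma RS_of_RE {z : ℝ} {E : Finset ℕ} {k : ℕ} {u : ℤ} (hE : ∀ p ∈ E, p.Prime)
    (h : RE z E k u) (hs : ¬ SqE E u) : ∃ S ∈ E.powersetCard k, RS z (∏ p ∈ S, p) u := by
  obtain ⟨S, hS⟩ : ∃ S, S = E.filter fun p : ℕ => (p : ℤ) ∣ u := ⟨_, rfl⟩
  have mS : ∀ p, p ∈ S ↔ p ∈ E ∧ (p : ℤ) ∣ u := fun p => by rw [hS, mem_filter]
  have dv : ((∏ p ∈ S, p : ℕ) : ℤ) ∣ u := by
    rw [Nat.cast_prod]
    exact Finset.prod_dvd_of_coprime (fun p hp q hq e => Nat.isCoprime_iff_coprime.2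
      ((Nat.coprime_primes (hE p ((mS p).1 hp).1) (hE q ((mS q).1 hq).1)).2 e))
      fun p hp => ((mS p).1 hp).2
  refine ⟨S, mem_powersetCard.2 ⟨hS ▸ filter_subset _ _, hS ▸ h.1⟩, dv, fun p hp k1 => ?_⟩
  have e := Int.mul_ediv_cancel' dv
  have k2 : (p : ℤ) ∣ u := e ▸ k1.mul_left _
  have k3 := h.2 p hp k2
  refine hs ⟨p, k3, ?_⟩
  rw [← e, sq]
  exact mul_dvd_mul (Int.natCast_dvd_natCast.2 (dvd_prod_of_mem _ ((mS p).2 ⟨k3, k2⟩))) k1

end Pool.Agent.Work.MP_d018b2_nt.Z
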