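import Pool.Agent.Work.MP_d018b2_nt.R.PCore

/-! Pairs of linear forms: the asymptotic follows from a bound for one bilinear sum. -/

set_option autoImplicit false
open Finset Filter

namespace Pool.Agent.Work.MP_d018b2_nt.Z

open Pool.Agent.Work.MP_678620_nt Pool.Agent.Work.MP_d018b2_nt.R

theorem core1 (A : ℕ) {c : ℝ} (hc : 0 < c) (k1 k2 : ℕ) {ε : ℝ} (hε : 0 < ε) :
    ∀ᶠ X : ℕ in atTop, ∀ N : ℕ, (X : ℝ) ≤ N * Real.log X ^ 3 → N ≤ X →
    ∀ E : Finset ℕ, Eok X c E → ∀ (a1 a2 : ℕ) (b1 b2 : ℤ), Lin (Real.log X ^ A) a1 a2 b1 b2 →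
    ∀ τ : ℝ, ‖∑ m ∈ Ioc ((a1 * a2 * N : ℕ) : ℤ) (2 * (a1 * a2 * N : ℕ)),
      (if wE E m = k1 ∧ m ≡ a2 * b1 [ZMOD (a1 * a2 : ℕ)] then
        conv (bE a2 E) (gam (zz X) 1 w1) m else 0) *
        (if wE E (m + (a1 * b2 - a2 * b1)) = k2 then
          conv (bE a1 E) (gam (zz X) 1 w1) (m + (a1 * b2 - a2 * b1))
            - conv (bE a1 E) (flat (zz X) 1 w1) (m + (a1 * b2 - a2 * b1)) else 0)‖ ≤ τ →
    |(((Ioc (N : ℤ) (2 * N)).filter fun n =>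
          PE E k1 (a1 * n + b1) ∧ PE E k2 (a2 * n + b2)).card : ℝ) * Real.log X ^ 2
        - N * (ek E k1 * ek E k2) * ∏ p ∈ PZ (zz X), locF a1 a2 b1 b2 p|
      ≤ ε * (N * (ek E k1 * ek E k2)) * (∏ p ∈ PZ (zz X), locF a1 a2 b1 b2 p + 1) + 23 * τ := by
  obtain ⟨b0, hb0⟩ := eventually_atTop.1 (bv_ok (A + 15))
  obtain ⟨δ, δ0, δ1, δ2⟩ : ∃ δ : ℝ, 0 < δ ∧ δ ≤ 1 / 6 ∧ 23 * δ ≤ ε :=
    ⟨min (ε / 23) (1 / 6), by positivity, min_le_right _ _, by linarith only [min_le_left (ε / 23) (1 / 6)]⟩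
  obtain ⟨ι, hι⟩ : ∃ ι : ℝ, ι = δ * ((1 / 4) ^ k1 / k1.factorial * ((1 / 4) ^ k2 / k2.factorial)) :=
    ⟨_, rfl⟩
  have ι0 : 0 < ι := by rw [hι]; positivity
  obtain ⟨K, hK⟩ : ∃ K, K = k1 + k2 := ⟨_, rfl⟩
  filter_upwards [Vz_inv_le, zz_big A, TB_mertens, TB_tend.eventually_ge_atTop 3,
    TB_ev_small (show (0 : ℝ) ≤ 40 * (K + A + 1) by positivity) δ0, TB_ev_exp 3 (2 * A) hc,
    TB_ev_exp (4 * K) 0 hc, TB_ev_exp (10 * Real.exp 72 / ι) 3 hc,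
    TB_ev_exp (3 * K * Real.exp 144 / (ι / 2 ^ k2)) 4 hc,
    TB_ev_exp (10 / ι + 4) (A + 5) (show (0 : ℝ) < 1 / 4 by norm_num),
    TB_tend.eventually_ge_atTop ((1 + 2 * Real.exp 576) / ι), eventually_gt_atTop 0,
    TB_tend.eventually_ge_atTop ((1 + 2 * Real.exp 576) / (ι / 2 ^ k2)),
    TB_tend.eventually_ge_atTop (2 * (b0 : ℝ)),
    TB_tend.eventually_ge_atTop (2 ^ k2 * 4 * Real.exp 72 * 2 ^ (A + 15) / ι)]
    with X hV hz hM hl hs g1 g2 g3 g4 g5 g6 X0 g7 g8 g9 N hN1 hN2 E hE a1 a2 b1 b2 hL τ T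
  have τ0 : 0 ≤ τ := (norm_nonneg _).trans T
  have eX : Real.exp (Real.log X) = X := Real.exp_log (by exact_mod_cast X0)
  have ez : zz X = Real.exp (Real.log X ^ (24 / 25 : ℝ)) := rfl
  obtain ⟨E1, E2, E3, E4⟩ := id hE
  generalize Real.log X = l at *
  generalize zz X = z at *
  have l1 : 1 ≤ l := by clear * - l δ δ0 δ1 hl; linarith only [δ0, δ1, hl]
  have l0 : 0 < l := by clear * - l δ δ0 δ1 hl; linarith
  have t1 : 1 ≤ Real.log l := by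
    clear * - l l0 δ δ0 δ1 hl
    rw [Real.le_log_iff_exp_le l0]; linarith only [δ0, δ1, hl, Real.exp_one_lt_d9]
  have q0 := Real.rpow_nonneg l0.le (1 / 4 : ℝ)
  have s0 := Real.rpow_nonneg l0.le (24 / 25 : ℝ)
  have hq : Real.exp (l ^ (1 / 4 : ℝ)) ≤ z := by
    clear * - l z δ δ0 δ1 X A hz l1
    linarith only [δ0, δ1, hz, l1, Real.exp_le_exp.mpr (Real.rpow_le_rpow_of_exponent_le l1
      (show (1 / 4 : ℝ) ≤ 4 / 5 by norm_num)), hz.2.1]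
  have H0 := Real.exp_pos (l ^ c)
  generalize l ^ (1 / 4 : ℝ) = q at *
  generalize l ^ (24 / 25 : ℝ) = s at *
  generalize Real.exp (l ^ c) = H0' at *
  have z0 : 0 < z := ez ▸ Real.exp_pos s
  have K0 : (0 : ℝ) ≤ K := Nat.cast_nonneg K
  have A0 : (0 : ℝ) ≤ A := Nat.cast_nonneg A
  have ts := mul_nonneg (zero_le_one.trans t1) s0
  have m1 := mul_nonneg K0 q0
  have m2 := mul_nonneg A0 (zero_le_one.trans t1)
  have hs' : K * q + A * Real.log l + 40 * (1 + Real.log l + q + s + Real.log l * s) + 39 * (K * q)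
      ≤ δ * l := by
    clear * - K l s K0 δ δ0 δ1 t1 s0 ts A q A0 q0 hs m2
    have u1 := mul_nonneg K0 (show 0 ≤ 1 + Real.log l + s + Real.log l * s by linarith)
    have u2 := mul_nonneg A0 (show 0 ≤ 1 + q + s + Real.log l * s by linarith)
    linarith only [hs, m2, u1, u2]
  have δl : δ * l ≤ l / 6 := by clear * - δ l δ1 l0; linarith only [δ1, l0, mul_le_mul_of_nonneg_right δ1 l0.le]
  have hY : Real.exp q ≤ Real.exp (l / 2) := Real.exp_le_exp.mpr (by clear * - q l δ s K A δ0 δ1 t1 q0 s0 ts m1 m2 hs' δl; linarith only [δ0, δ1, t1, q0, s0, ts, m1, m2, hs', δl])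
  have eY : Real.exp (l / 2) * Real.exp (l / 2) = X := by rw [← Real.exp_add, add_halves, eX]
  have Y1 : 1 ≤ Real.exp (l / 2) := Real.one_le_exp (by clear * - l δ q s K A δ0 δ1 t1 q0 s0 ts m1 m2 hs' δl; linarith only [δ0, δ1, t1, q0, s0, ts, m1, m2, hs', δl])
  have B1 : 1 ≤ l ^ A := hL.B_ge
  have N0 : (0 : ℝ) ≤ N := Nat.cast_nonneg N
  have i0 : 0 < 10 / ι := by positivity
  have hNY : (10 / ι + 4) * (l ^ 2 * l ^ A * Real.exp (l / 2)) ≤ N := by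
    refine le_of_mul_le_mul_right (le_trans ?_ hN1) (pow_pos l0 3)
    have := mul_le_mul_of_nonneg_right (g5.trans hY) (zero_le_one.trans Y1)
    rw [eY] at this
    exact le_trans (le_of_eq (by ring)) this
  have w1' : 1 ≤ l ^ 2 := one_le_pow₀ l1
  have w2 : l ^ A ≤ l ^ 2 * l ^ A := le_mul_of_one_le_left (by clear * - l A δ δ0 δ1 B1 w1'; linarith) w1'
  have w3 : l ^ 2 * l ^ A ≤ l ^ 2 * l ^ A * Real.exp (l / 2) :=
    le_mul_of_one_le_right (by clear * - l A δ δ0 δ1 B1 w2 Y1; linarith) Y1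
  have w4 : Real.exp (l / 2) ≤ l ^ 2 * l ^ A * Real.exp (l / 2) :=
    le_mul_of_one_le_left (by clear * - l δ δ0 δ1 Y1; linarith) (by clear * - l A B1 w2; linarith)
  have w5 := mul_nonneg i0.le (show 0 ≤ l ^ 2 * l ^ A * Real.exp (l / 2) by clear * - l A δ δ0 δ1 B1 w2 w3 i0; linarith only [δ0, δ1, B1, w2, w3])
  have hN4 : 4 * l ^ A ≤ N := by clear * - l A N ι hNY w2 w3 w5; linarith only [hNY, w2, w3, w5]
  have hNι : 10 * (l ^ 2 * l ^ A * Real.exp (l / 2)) ≤ ι * N := by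
    clear * - ι l A N δ δ0 δ1 B1 hNY w2 w3 ι0
    have : 10 / ι * (l ^ 2 * l ^ A * Real.exp (l / 2)) ≤ N := by linarith only [δ0, δ1, B1, hNY, w2, w3]
    rw [div_mul_eq_mul_div, div_le_iff₀ ι0] at this
    linarith only [this]
  have hBY : l ^ A ≤ Real.exp (l / 2) := by
    clear * - l A ι l1 hl δ δ0 δ1 i0 q g5 hY
    refine le_trans ?_ (g5.trans hY)
    exact (pow_le_pow_right₀ l1 (Nat.le_add_right A 5)).trans
      (le_mul_of_one_le_left (by positivity) (by linarith only [δ0, δ1, i0]))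
  have B2 : l ^ (2 * A) = (l ^ A) ^ 2 := by rw [mul_comm, pow_mul]
  have B3 : l ^ (2 * A + 1) = (l ^ A) ^ 2 * l := by rw [pow_succ, B2]
  have B4 : 0 < (l ^ A) ^ 2 := by positivity
  have big : ∀ p ∈ E, 2 * (l ^ A) ^ 2 < p := fun p hp => by clear * - l A p H0' g1 H0 B2 E2 hp E; linarith [E2 p hp]
  have aa : ((a1 * a2 : ℕ) : ℝ) ≤ (l ^ A) ^ 2 := by
    clear * - a1 a2 l A b1 b2 hL δ δ0 δ1 B1
    rw [Nat.cast_mul, sq]; exact mul_le_mul hL.a1_le hL.a2_le (Nat.cast_nonneg _) (by linarith)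
  have pa : 0 < a1 * a2 := mul_pos hL.a1_pos hL.a2_pos
  have NX : (N : ℝ) ≤ X := by exact_mod_cast hN2
  have Ez : ∀ p ∈ E, (p : ℝ) ≤ z := fun p hp => (E3 p hp).trans hq
  have z1 := hL.a1_le.trans hz.1
  have z2 := hL.a2_le.trans hz.1
  have ed := (TB_ediv a1 b1).trans hL.b1_le
  have S := PB_sum (δ := δ) (l := l) (h1 := q) δ0.le (by clear * - δ δ0 δ1 E1 E3 Ez T big ez hL hV l l1 q z1 z2; linarith only [δ0, δ1]) hV hL.a1_pos hL.a2_pos z1 z2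
    (fun p hp => ⟨E1 p hp, (hL.big (big p hp)).1, (hL.big (big p hp)).2.1, Ez p hp,
      (Real.log_le_iff_le_exp (by exact_mod_cast (E1 p hp).pos)).mpr (E3 p hp)⟩)
    (by clear * - z δ l s ez q K A δ0 δ1 t1 q0 s0 ts m1 m2 hs' δl T l1; rw [ez, Real.log_exp]; linarith only [δ0, δ1, t1, q0, s0, ts, m1, m2, hs', δl]) ?_ T
  swap
  · intro n hn
    obtain ⟨n1, n2⟩ := mem_Ioc.mp hn
    have n3 : ((N + -b1 / a1 : ℤ) : ℝ) ≤ n := by exact_mod_cast n1.le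
    have n4 : (n : ℝ) ≤ (N + -b1 / a1 + N : ℤ) := by exact_mod_cast n2
    rw [Int.cast_add] at n3 n4
    rw [Int.cast_add] at n4
    rw [Int.cast_natCast] at n3 n4
    obtain ⟨n5, n6⟩ := abs_le.mp ed
    exact ⟨TB_logs (K := K) l1 q0 (by omega) (eX ▸ hN1) (eX ▸ NX) (TB_size hL.a1_pos hL.a1_le
      hL.b1_le hN4 (by clear * - N l A n b1 a1 n3 n5 hL hN4; linarith) (by clear * - n N l A b1 a1 n4 n6 hL hN4; linarith)) (by clear * - K q l δ s A δ0 δ1 t1 q0 s0 ts m1 m2 hs' hL hN4; linarith only [δ0, δ1, t1, q0, s0, ts, m1, m2, hs']) (by clear * - A l δ q s K δ0 δ1 t1 q0 s0 ts m1 hs' hL hN4; linarith only [δ0, δ1, t1, q0, s0, ts, m1, hs']),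
      TB_logs (K := K) l1 q0 (by omega) (eX ▸ hN1) (eX ▸ NX) (TB_size hL.a2_pos hL.a2_le
      hL.b2_le hN4 (by clear * - N l A n b1 a1 n3 n5 hL hN4; linarith) (by clear * - n N l A b1 a1 n4 n6 hL hN4; linarith)) (by clear * - K q l δ s A δ0 δ1 t1 q0 s0 ts m1 m2 hs' hL hN4; linarith only [δ0, δ1, t1, q0, s0, ts, m1, m2, hs']) (by clear * - A l δ q s K δ0 δ1 t1 q0 s0 ts m1 hs' hL hN4; linarith only [δ0, δ1, t1, q0, s0, ts, m1, hs'])⟩
  obtain ⟨J, J1, J2⟩ : ∃ J : ℕ, 11 * Real.log l ≤ (J + 1 : ℕ) ∧ ((J + 1 : ℕ) : ℝ) ≤ 12 * Real.log l :=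
    ⟨⌊11 * Real.log l⌋₊, by push_cast; exact (Nat.lt_floor_add_one _).le, by
      clear * - l t1 δ δ0 δ1
      push_cast; linarith only [t1, δ0, δ1, Nat.floor_le (show 0 ≤ 11 * Real.log l by linarith)]⟩
  have EP : ∀ p ∈ E, p ∈ PZ z := fun p hp => (mem_PZ z0.le).mpr ⟨E1 p hp, Ez p hp⟩
  have z1' : 1 ≤ z := hL.B_ge.trans hz.1
  have hF := PB_lev (k := k2) l1 s0 hL.a1_pos hL.a1_le J2 (by
    clear * - k2 K k1 hK X N a1 a2 s s0 l q K0 δ δ0 δ1 t1 q0 ts A A0 hs m1 m2 hs' δl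
    have : (k2 : ℝ) ≤ K := by exact_mod_cast (by omega : k2 ≤ K)
    have u1 := mul_le_mul_of_nonneg_right this s0
    have u2 := mul_nonneg K0 (show 0 ≤ 1 + Real.log l + q + Real.log l * s by linarith only [δ0, δ1, t1, q0, ts])
    have u3 := mul_nonneg A0 (show 0 ≤ 1 + q + s + Real.log l * s by linarith only [δ0, δ1, q0, s0, ts])
    linarith only [δ0, δ1, t1, q0, s0, hs, ts, m1, m2, hs', δl, u1, u2, u3])
  rw [← ez] at hF
  have C := PC_count (x := 2 * (Real.log l + 72)) (η := 4 * l ^ A * N / (l / 2) ^ (A + 15)) k1 k2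
    hL z1' H0 z1 (by positivity) (fun p hp => ⟨EP p hp, big p hp, E2 p hp⟩) (by clear * - z l hM E2 EP H0 J big hL z1 z1'; linarith) J _
    (Nat.le_ceil _) (N + -b1 / a1) N fun S hS => by
      clear * - l A b1 a1 N S z k2 J ed a2 b2 hL hN4 δ ι δ0 δ1 B1 hNY w2 w3 w5 k1 q K l1 q0 hK
        X hN1 eX NX s t1 s0 ts m1 m2 hs' E1 E hS E3 b0 hb0 l0 δl hF g8 ez
      obtain ⟨n5, n6⟩ := abs_le.mp ed
      have v1 := TB_size (n := N + -b1 / a1) hL.a1_pos hL.a1_le hL.b1_le hN4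
        (by rw [Int.cast_add, Int.cast_natCast]; linarith only [n5])
        (by rw [Int.cast_add, Int.cast_natCast]; linarith only [δ0, δ1, B1, hNY, w2, w3, w5, n6])
      have v2 := TB_size (n := N + -b1 / a1 + N) hL.a1_pos hL.a1_le hL.b1_le hN4
        (by rw [Int.cast_add, Int.cast_add, Int.cast_natCast]; linarith only [δ0, δ1, B1, hNY, w2, w3, w5, n5])
        (by rw [Int.cast_add, Int.cast_add, Int.cast_natCast]; linarith only [n6])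
      obtain ⟨v3, v4, -⟩ := TB_logs (K := K) (k := k1) (δ := δ) l1 q0 (by omega) (eX ▸ hN1)
        (eX ▸ NX) v1 (by linarith only [δ0, δ1, t1, q0, s0, ts, m1, m2, hs']) (by linarith only [δ0, δ1, t1, q0, s0, ts, m1, hs'])
      have d0 : 0 < ∏ p ∈ S, p := prod_pos fun p hp => (E1 p ((mem_powersetCard.1 hS).1 hp)).pos
      have v5 := (TB_log_cof (h1 := q) (fun p hp => ⟨E1 p hp, (Real.log_le_iff_le_exp
        (by exact_mod_cast (E1 p hp).pos)).mpr (E3 p hp)⟩) hS d0.ne' (mul_one _)).1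
      rw [Nat.cast_one, Real.log_one] at v5
      obtain ⟨a, b, u1, u2, u3, u4⟩ := PB_bv hb0 l0 d0 v3 (by linarith only [δ0, δ1, t1, q0, s0, ts, m1, m2, hs', δl, v4, v5]) (by
        have : (0 : ℤ) ≤ a1 * N := by positivity
        linarith only [this]) v2.2 hF (by linarith only [δ0, δ1, g8, Real.add_one_le_exp (l / 2)])
      rw [Nat.cast_prod, ← prod_inv_distrib] at u4
      exact ⟨a, b, u1, u2, le_trans (by rw [ez]; exact Real.exp_le_exp.2 (by linarith only [δ0, δ1, t1, q0, s0, ts, m1, m2, hs', δl])) u3, u4⟩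
  have hΛ : Real.exp (∑ p ∈ E, (p : ℝ)⁻¹) ≤ Real.exp 72 * l := by
    clear * - E l l0 z EP hM
    rw [← Real.exp_log l0, ← Real.exp_add, Real.exp_le_exp, add_comm]
    exact (sum_le_sum_of_subset_of_nonneg EP fun _ _ _ => by positivity).trans hM
  have hLs : ∑ p ∈ E, (p : ℝ)⁻¹ ≤ Real.exp 72 * l := by
    clear * - E l δ δ0 δ1 hΛ
    linarith only [δ0, δ1, hΛ, Real.add_one_le_exp (∑ p ∈ E, (p : ℝ)⁻¹)]
  have cE := TB_card_E (Real.exp_pos q).le fun p hp => ⟨E1 p hp, E3 p hp⟩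
  have Q1 := TB_e1 l1 ι0 N0 H0 hLs (TB_sq H0 hL.a1_pos b1 (fun p hp =>
    ⟨E1 p hp, (hL.big (big p hp)).1, E2 p hp⟩) (N + -b1 / a1) N) cE hY (by clear * - l δ δ0 δ1 Y1 B1 E1 E2 N a1 b1 big cE g3 hL hNι hY; linarith only [δ0, δ1, Y1]) B1 g3 hNι
  have Q2 := TB_e1 l1 ι0 N0 H0 hLs (TB_sq H0 hL.a2_pos b2 (fun p hp =>
    ⟨E1 p hp, (hL.big (big p hp)).2.1, E2 p hp⟩) (N + -b1 / a1) N) cE hY (by clear * - l δ δ0 δ1 Y1 B1 E1 E2 N a1 b1 big cE g3 hL hNι hY; linarith only [δ0, δ1, Y1]) B1 g3 hNι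
  rw [← Nat.cast_add, ← hK] at C
  have V0 := (inv_pos.mpr (Vz_pos z)).le
  have R := PB_e3 l1 ι0 N0 V0 hV (Real.exp_pos _).le hΛ J2 C g9 (TB_e3 (T := 0) (Y := 0) l1
    (show 0 < ι / 2 ^ k2 by positivity) N0 H0 K0 (by positivity) (Real.exp_pos _).le hΛ V0 hV
    (by clear * - N E K H0' l J H0 t1 B1 g4; positivity) (add_zero _).ge le_rfl le_rfl B1 g4 (by rw [mul_zero, mul_zero]; positivity)
    (TB_e4 l1 J1) g7)
  rw [← abs_of_nonneg V0, ← abs_mul, abs_of_nonneg V0, mul_sub, mul_left_comm, ← mul_assoc (Vz z)⁻¹,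
    ← sq, ← TB_Sz] at R
  have Sh := TB_shift (fun n => PE E k1 (a1 * n + b1) ∧ PE E k2 (a2 * n + b2)) N (2 * N)
    (N + -b1 / a1) (N + -b1 / a1 + N)
  rw [show (N : ℤ) - (N + -b1 / a1) = -(-b1 / a1) by ring,
    show (2 * N : ℤ) - (N + -b1 / a1 + N) = -(-b1 / a1) by ring, Int.cast_neg, abs_neg] at Sh
  have Sh2 := mul_le_mul_of_nonneg_left (Sh.trans (add_le_add ed ed)) (sq_nonneg l)
  rw [← abs_of_nonneg (sq_nonneg l), ← abs_mul, mul_sub, abs_of_nonneg (sq_nonneg l)] at Sh2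
  have e0 := mul_nonneg (ek_nonneg E k1) (ek_nonneg E k2)
  have hD : ι * N ≤ δ * (N * (ek E k1 * ek E k2)) := by
    clear * - K E H0' H0 E2 E4 l g2 δ N k1 k2 hK X a1 a2 δ0 N0 ι hι
    have u : ∀ k : ℕ, k ≤ K → (1 / 4) ^ k / k.factorial ≤ ek E k := fun k hk =>
      TB_ek_ge H0 E2 E4 k (by
        have : (k : ℝ) ≤ K := by exact_mod_cast hk
        linarith only [g2, this, pow_zero l])
    have := mul_le_mul_of_nonneg_left (mul_le_mul (u k1 (by omega)) (u k2 (by omega))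
      (by positivity) (ek_nonneg _ _)) (mul_nonneg δ0.le N0)
    rw [hι]; linarith only [this]
  have S0 : 0 ≤ ∏ p ∈ PZ z, locF a1 a2 b1 b2 p := by
    rw [TB_Sz]; exact mul_nonneg (sq_nonneg _) (TB_W _ _ _ _ _).1
  have F := PB_arith (D := ι * N + τ) δ0.le δ1 (by positivity)
    (S.trans (by linarith only [τ0, B1, w2, w3, hNι, Q1, Q2])) (R.trans (by linarith only [τ0]))
    (Sh2.trans (by linarith only [τ0, B1, w2, w3, hNι])) (by positivity)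
    (mul_nonneg (mul_nonneg N0 e0) S0)
  rw [mul_comm _ (l ^ 2)]
  refine F.trans ?_
  have Ne := mul_nonneg N0 e0
  have f1 := mul_le_mul_of_nonneg_right δ2 Ne
  have f2 := mul_le_mul_of_nonneg_right (show 14 * δ ≤ ε by clear * - δ ε δ0 δ2 Ne S0; linarith) (mul_nonneg Ne S0)
  linarith only [hD, f1, f2]

end Pool.Agent.Work.MP_d018b2_nt.Z
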