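import Pool.Agent.Work.MP_d018b2_nt.Z.Bes1
import Pool.Agent.Work.MP_d018b2_nt.Z.Core1
import Pool.Agent.Work.MP_678620_nt.TBFin

/-! A prime in one form and an almost prime in almost every other form. -/

set_option autoImplicit false
open Finset Filter Topology

namespace Pool.Agent.Work.MP_d018b2_nt.Z

open Pool.Agent.Work.MP_678620_nt Pool.Agent.Work.MP_51e72e_nt Pool.Agent.Work.MP_d018b2_nt.M

lemma gen_ge (u : ℕ → ℝ) (T : Finset ℕ) (h0 : ∀ p ∈ T, 0 ≤ u p)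
    (h8 : ∀ p ∈ T, p ≤ 8 → 1 / 8 ≤ u p) (h9 : ∀ p ∈ T, 1 - 4 * ((p : ℝ) ^ 2)⁻¹ ≤ u p) :
    (1 / 8) ^ 9 / 2 ≤ ∏ p ∈ T, u p := by
  rw [← prod_filter_mul_prod_filter_not T (· ≤ 8), div_eq_mul_one_div]
  refine mul_le_mul ?_ ?_ (by norm_num) (prod_nonneg fun p hp => h0 p (mem_filter.mp hp).1)
  · have c : (T.filter (· ≤ 8)).card ≤ 9 := (card_le_card (t := range 9) fun p hp =>
      mem_range.mpr (Nat.lt_succ_of_le (mem_filter.mp hp).2)).trans (card_range 9).le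
    refine (pow_le_pow_of_le_one (by norm_num) (by norm_num) c).trans ?_
    rw [← prod_const]
    exact prod_le_prod (fun _ _ => by norm_num) fun p hp =>
      h8 p (mem_filter.mp hp).1 (mem_filter.mp hp).2
  · have := TB_tail_prod u (T.filter fun p => ¬ p ≤ 8) (w := 8) (by norm_num)
      fun p hp => ⟨not_le.mp (mem_filter.mp hp).2, h9 p (mem_filter.mp hp).1⟩
    exact le_trans (by norm_num) this

lemma Wt_prod {z : ℝ} {a : ℕ} (ha : 0 < a) (hz : (a : ℝ) ≤ z) :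
    (∏ p ∈ PZ z, if p ∣ a then 1 - (p : ℝ)⁻¹ else 1) * Wt a = 1 := by
  have a0 : (0 : ℝ) < a := by exact_mod_cast ha
  have t0 : (0 : ℝ) < a.totient := by exact_mod_cast Nat.totient_pos.2 ha
  have e1 : (PZ z).filter (· ∣ a) = a.primeFactors := by
    ext p
    rw [mem_filter, mem_PZ (a0.le.trans hz), Nat.mem_primeFactors]
    exact ⟨fun k => ⟨k.1.1, k.2, ha.ne'⟩, fun k => ⟨⟨k.1, le_trans
      (by exact_mod_cast Nat.le_of_dvd ha k.2.1) hz⟩, k.2.1⟩⟩
  have e2 : (a.totient : ℝ) = a * ∏ p ∈ a.primeFactors, (1 - (p : ℝ)⁻¹) := by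
    have := congrArg (Rat.cast : ℚ → ℝ) (Nat.totient_eq_mul_prod_factors a)
    push_cast at this
    exact this
  rw [← prod_filter, e1, Wt, ← mul_assoc, mul_comm _ (a : ℝ), ← e2, mul_inv_cancel₀ t0.ne']

lemma Sz_ge {B z : ℝ} {a1 a2 : ℕ} {b1 b2 : ℤ} (h : Lin B a1 a2 b1 b2) (h2 : om a1 a2 b1 b2 2 < 2)
    (z1 : (a1 : ℝ) ≤ z) (z2 : (a2 : ℝ) ≤ z) :
    (1 / 8) ^ 9 / 2 * (Wt a1 * Wt a2) ≤ ∏ p ∈ PZ z, locF a1 a2 b1 b2 p := by
  obtain ⟨u, hu⟩ : ∃ u : ℕ → ℝ, u = fun p => locF a1 a2 b1 b2 p *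
    ((if p ∣ a1 then 1 - (p : ℝ)⁻¹ else 1) * if p ∣ a2 then 1 - (p : ℝ)⁻¹ else 1) := ⟨_, rfl⟩
  have key : ∀ p ∈ PZ z, u p = 1 ∨ u p = locF a1 a2 b1 b2 p := fun p hp => by
    have pp := PZ_prime hp
    have n0 : 1 - (p : ℝ)⁻¹ ≠ 0 :=
      (sub_pos.2 (inv_lt_one_of_one_lt₀ (by exact_mod_cast pp.one_lt))).ne'
    rw [hu]
    dsimp only
    by_cases c1 : p ∣ a1 <;> by_cases c2 : p ∣ a2
    · left
      rw [locF, om_eq _ _ _ _ pp, R.PL_noroot pp h.cop1 (Int.natCast_dvd_natCast.2 c1),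
        R.PL_noroot pp h.cop2 (Int.natCast_dvd_natCast.2 c2), if_pos c1, if_pos c2, empty_union,
        card_empty, Nat.cast_zero, zero_div, sub_zero, one_div (p : ℝ), ← sq,
        div_mul_cancel₀ _ (pow_ne_zero 2 n0)]
    · left
      rw [locF, om_eq _ _ _ _ pp, R.PL_noroot pp h.cop1 (Int.natCast_dvd_natCast.2 c1), empty_union,
        TB_root pp fun k => c2 (Int.natCast_dvd_natCast.1 k), if_pos c1, if_neg c2, Nat.cast_one,
        one_div (p : ℝ), mul_one, div_mul_eq_mul_div, ← sq, div_self (pow_ne_zero 2 n0)]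
    · left
      rw [locF, om_eq _ _ _ _ pp, R.PL_noroot pp h.cop2 (Int.natCast_dvd_natCast.2 c2), union_empty,
        TB_root pp fun k => c1 (Int.natCast_dvd_natCast.1 k), if_neg c1, if_pos c2, Nat.cast_one,
        one_div (p : ℝ), one_mul, div_mul_eq_mul_div, ← sq, div_self (pow_ne_zero 2 n0)]
    · right
      rw [if_neg c1, if_neg c2, mul_one, mul_one]
  have H := gen_ge u (PZ z) (fun p hp => by
      rcases key p hp with e | e <;> rw [e]
      exacts [zero_le_one, locF_nonneg _ _ _ _ p]) (fun p hp p2 => by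
      rcases key p hp with e | e <;> rw [e]
      · norm_num
      have pp := PZ_prime hp
      have q2 : (2 : ℝ) ≤ p := by exact_mod_cast pp.two_le
      have q8 : (p : ℝ) ≤ 8 := by exact_mod_cast p2
      have o : om a1 a2 b1 b2 p < p := by
        rcases pp.two_le.eq_or_lt with e | e
        · rw [← e]; exact h2
        · exact (om_le_two h pp).trans_lt e
      have o' : (om a1 a2 b1 b2 p : ℝ) + 1 ≤ p := by exact_mod_cast o
      have a3 : 1 / 8 ≤ 1 - (om a1 a2 b1 b2 p : ℝ) / p := by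
        rw [one_sub_div (by linarith), le_div_iff₀ (by linarith)]; linarith
      have a4 : 1 / (p : ℝ) ≤ 1 / 2 := one_div_le_one_div_of_le two_pos q2
      exact a3.trans (le_div_self (by linarith) (pow_pos (by linarith) 2)
        (pow_le_one₀ (by linarith) (sub_le_self _ (by positivity))))) fun p hp => by
      rcases key p hp with e | e <;> rw [e]
      exacts [sub_le_self _ (by positivity), locF_ge h (PZ_prime hp)]
  rw [hu, prod_mul_distrib, prod_mul_distrib] at H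
  refine (mul_le_mul_of_nonneg_right H (mul_nonneg (zero_le_one.trans (Wt_ge h.a1_pos))
    (zero_le_one.trans (Wt_ge h.a2_pos)))).trans (le_of_eq ?_)
  rw [mul_assoc, mul_mul_mul_comm, Wt_prod h.a1_pos z1, Wt_prod h.a2_pos z2, mul_one, mul_one]

lemma odd_of_PE {h1 : ℝ} {E : Finset ℕ} {k : ℕ} {u : ℤ}
    (hE : ∀ p ∈ E, p.Prime ∧ Real.log p ≤ h1) (h2 : 2 ∉ E) (hu : Real.log 2 + k * h1 < Real.log u)
    (h : PE E k u) : ¬ (2 : ℤ) ∣ u := fun d => by
  obtain ⟨S, hS, k1, k2⟩ := RS_of_PE two_pos hE hu h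
  have sub := (mem_powersetCard.1 hS).1
  rw [← Int.mul_ediv_cancel' k1] at d
  rcases Int.prime_two.dvd_or_dvd d with k3 | k3
  · exact h2 (sub ((R.PC_dvd (fun q hq => (hE q (sub hq)).1) Nat.prime_two).1
      (Int.natCast_dvd_natCast.1 k3)))
  · exact k2 2 ((mem_PZ zero_le_two).2 ⟨Nat.prime_two, by norm_num⟩) k3

lemma Eok_ceil {x c : ℝ} {N : ℕ} (hc : 0 < c) (L2 : 2 ≤ Real.log x) (lL : Real.log x ≤ Real.log N)
    (Ll : Real.log N ≤ 2 * Real.log x) {E : Finset ℕ}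
    (hE : ∀ p ∈ E, p.Prime ∧ Real.exp (Real.log x ^ c) ≤ p ∧
      (p : ℝ) ≤ Real.exp (Real.log x ^ (1 / 4 : ℝ))) (big : 1 / 2 ≤ ∑ p ∈ E, (p : ℝ)⁻¹) :
    Eok N (c / 2) E := by
  refine ⟨fun p hp => (hE p hp).1, fun p hp => le_trans (Real.exp_le_exp.mpr ?_) (hE p hp).2.1,
    fun p hp => (hE p hp).2.2.trans (Real.exp_le_exp.mpr
      (Real.rpow_le_rpow (by linarith only [L2]) lL (by norm_num))), big⟩
  have a : Real.log N ≤ Real.log x ^ (2 : ℝ) := by
    rw [Real.rpow_two, sq]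
    exact Ll.trans (mul_le_mul_of_nonneg_right L2 (by linarith only [L2]))
  refine (Real.rpow_le_rpow (by linarith only [L2, lL]) a (half_pos hc).le).trans (le_of_eq ?_)
  rw [← Real.rpow_mul (by linarith only [L2]), mul_div_cancel₀ _ two_ne_zero]

theorem fin (A : ℕ) {c : ℝ} (hc : 0 < c) : ∃ k0 : ℕ, ∀ k : ℕ, k0 ≤ k → ∀ ε : ℝ, 0 < ε → ε ≤ 1 →
    ∃ X : ℝ, ∀ x : ℝ, X ≤ x → ∀ φ, Pf (Real.log x ^ A) φ → ∀ E : Finset ℕ,
    (∀ p ∈ E, p.Prime ∧ Real.exp (Real.log x ^ c) ≤ p ∧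
      (p : ℝ) ≤ Real.exp (Real.log x ^ (1 / 4 : ℝ))) → 1 / 2 ≤ ∑ p ∈ E, (p : ℝ)⁻¹ →
    ∀ S : Finset (ℕ × ℤ), (∀ ψ ∈ S, Pf (Real.log x ^ A) ψ ∧
      ε * (x / Real.log x ^ 2 * (ek E 0 * ek E k) * ∏' p : Nat.Primes, locF φ.1 ψ.1 φ.2 ψ.2 p) <
      |(((range ⌈2 * x⌉₊).filter fun q : ℕ => x ≤ (q : ℝ) ∧ (q : ℝ) < 2 * x ∧
          PE E 0 (φ.1 * q + φ.2) ∧ PE E k (ψ.1 * q + ψ.2)).card : ℝ)
        - x / Real.log x ^ 2 * (ek E 0 * ek E k) * ∏' p : Nat.Primes, locF φ.1 ψ.1 φ.2 ψ.2 p|) →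
    ε ^ 2 * ek E k * S.card ≤ 10 ^ 31 * Real.log x ^ 2 := by
  obtain ⟨k0, H0⟩ := few A (half_pos hc)
  refine ⟨k0, fun k hk ε hε ε1 => ?_⟩
  obtain ⟨δ, hδ⟩ : ∃ δ : ℝ, δ = ε / 10 := ⟨_, rfl⟩
  have δ0 : 0 < δ := by rw [hδ]; positivity
  have δ1 : δ ≤ 1 / 10 := by linarith only [hδ, ε1]
  have δ2 : 10 * δ ≤ ε := by linarith only [hδ]
  obtain ⟨κ, κ0, hκ⟩ := TB_ev_ek 0 k (half_pos hc)
  obtain ⟨c0, c00, c01, hc0⟩ : ∃ c0 : ℝ, 0 < c0 ∧ c0 ≤ 1 ∧ c0 = (1 / 8) ^ 9 / 2 :=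
    ⟨_, by norm_num, by norm_num, rfl⟩
  have H := core1 A (half_pos hc) 0 k (show 0 < δ * c0 / 4 by positivity)
  obtain ⟨N0, hN0⟩ := eventually_atTop.mp (H.and
    ((TB_ev_sing A δ0 (by linarith only [δ1])).and (hκ.and ((TB_ev_lin (3 / (δ * κ * c0)) 2).and
    ((H0 k hk (δ * c0 / 46) (by positivity)).and ((zz_big A).and ((TB_ev_lin 4 A).and ((TB_ev_exp 3 0 (half_pos hc)).and
    (TE.rpow_le_rpow_log (4 * (k + 1)) (show (1 / 4 : ℝ) < 1 by norm_num))))))))))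
  refine ⟨N0 + Real.exp 2 + 1 / δ, fun x hx φ h E hE big S hS => ?_⟩
  have iδ : 0 < 1 / δ := one_div_pos.mpr δ0
  have n0 : (0 : ℝ) ≤ N0 := Nat.cast_nonneg _
  have ex := Real.exp_pos 2
  have x0 : 0 < x := by linarith only [hx, iδ, ex, n0]
  have L2 : 2 ≤ Real.log x := (Real.le_log_iff_exp_le x0).mpr (by linarith only [hx, iδ, n0])
  obtain ⟨N, hN⟩ : ∃ N, N = ⌈x⌉₊ := ⟨_, rfl⟩
  have xN : x ≤ N := hN ▸ Nat.le_ceil x
  have xN' : (N : ℝ) < x + 1 := hN ▸ Nat.ceil_lt_add_one x0.le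
  have Nx : (N : ℝ) ≤ (1 + δ) * x := by
    have a2 : 1 ≤ x * δ := (div_le_iff₀ δ0).mp (by linarith only [hx, ex, n0])
    linarith only [xN', a2]
  obtain ⟨H, hs, hκ, g, H0, hz, g4, g5, g6⟩ := hN0 N
    (by exact_mod_cast (show (N0 : ℝ) ≤ N by linarith only [hx, iδ, ex, xN]))
  have lL : Real.log x ≤ Real.log N := Real.log_le_log x0 xN
  have Ll : Real.log N ≤ (1 + δ) * Real.log x := by
    refine (Real.log_le_log (by linarith only [x0, xN]) Nx).trans ?_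
    rw [Real.log_mul (by positivity) x0.ne']
    linarith only [δ0, L2, Real.log_le_sub_one_of_pos (show 0 < 1 + δ by linarith only [δ0]),
      le_mul_of_one_le_right δ0.le (show 1 ≤ Real.log x by linarith only [L2])]
  have Ll2 : Real.log N ≤ 2 * Real.log x :=
    Ll.trans (mul_le_mul_of_nonneg_right (by linarith only [δ1]) (by linarith only [L2]))
  have pw := pow_le_pow_left₀ (by linarith only [L2]) lL A
  have pf : ∀ φ, Pf (Real.log x ^ A) φ → Pf (Real.log N ^ A) φ := fun φ h =>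
    ⟨h.1, h.2.1.trans pw, h.2.2.1.trans pw, h.2.2.2⟩
  have hE' := Eok_ceil hc L2 lL Ll2 hE big
  obtain ⟨G, H0⟩ := H0 E hE'
  have F := H0 φ (pf φ h) (S.erase φ) fun ψ hψ => by
    obtain ⟨m1, m2⟩ := mem_erase.1 hψ
    obtain ⟨u1, u2⟩ := hS ψ m2
    refine ⟨pf ψ u1, m1.symm, not_lt.1 fun T => not_le.2 u2 ?_⟩
    have hL := (pf φ h).lin (pf ψ u1) m1.symm
    replace T := H N (le_mul_of_one_le_right (Nat.cast_nonneg N)
      (one_le_pow₀ (by linarith only [L2, lL]))) le_rfl E hE' _ _ _ _ hL _ T.le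
    obtain ⟨c1, c2⟩ := hs _ _ _ _ hL
    have he := hκ E hE'
    obtain ⟨M, hM⟩ : ∃ M, M = ⌈2 * x⌉₊ := ⟨_, rfl⟩
    have M1 : M ≤ 2 * N := hM ▸ Nat.ceil_le.mpr (by push_cast; linarith only [xN])
    have M2 : 2 * N < M + 2 := by
      have : 2 * x ≤ M := hM ▸ Nat.le_ceil _
      exact_mod_cast (show 2 * (N : ℝ) < M + 2 by linarith only [xN', this])
    have N1 : 0 < N := by exact_mod_cast x0.trans_le xN
    rw [TB_card_nat _ ((Ioc (N - 1 : ℤ) (M - 1)).filter fun n =>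
      PE E 0 (φ.1 * n + φ.2) ∧ PE E k (ψ.1 * n + ψ.2)) (fun n => ?_)
      fun m hm => by have := mem_Ioc.mp (mem_filter.mp hm).1; omega]
    swap
    · rw [mem_filter, mem_filter, mem_range, mem_Ioc, ← Nat.ceil_le, ← Nat.lt_ceil, ← hN, ← hM]
      constructor
      · rintro ⟨u1, u2, u3, u4⟩; exact ⟨by omega, u4⟩
      · rintro ⟨u1, u4⟩; exact ⟨by omega, by omega, by omega, u4⟩
    rcases lt_or_ge (om φ.1 ψ.1 φ.2 ψ.2 2) 2 with adm | adm
    swap
    · have e1 : ((range 2).filter fun n : ℕ => ((2 : ℕ) : ℤ) ∣ (φ.1 * n + φ.2) * (ψ.1 * n + ψ.2)) =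
          range 2 := eq_of_subset_of_card_le (filter_subset _ _) (by rw [card_range]; exact adm)
      have e2 : ∏' p : Nat.Primes, locF φ.1 ψ.1 φ.2 ψ.2 p = 0 :=
        tprod_of_exists_eq_zero ⟨⟨2, Nat.prime_two⟩, by
          change locF φ.1 ψ.1 φ.2 ψ.2 2 = 0
          rw [locF, om, e1, card_range, div_self (by norm_num), sub_self, zero_div]⟩
      rw [e2, filter_eq_empty_iff.2]
      · simp
      intro n hn k1
      obtain ⟨n1, n2⟩ := mem_Ioc.1 hn
      have B1 := hL.B_ge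
      have n3 : (N : ℝ) ≤ n := by exact_mod_cast (show (N : ℤ) ≤ n by omega)
      have n4 : (n : ℝ) ≤ 2 * N := by exact_mod_cast (show n ≤ 2 * (N : ℤ) by omega)
      have q0 := Real.rpow_nonneg (show 0 ≤ Real.log N by linarith only [L2, lL]) (1 / 4 : ℝ)
      have q1 := Real.one_le_rpow (show 1 ≤ Real.log N by linarith only [L2, lL])
        (show (0 : ℝ) ≤ 1 / 4 by norm_num)
      have kq := mul_nonneg (Nat.cast_nonneg (α := ℝ) k) q0
      rw [Real.rpow_one] at g6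
      have od : ∀ (j : ℕ) (χ : ℕ × ℤ), j ≤ k → Pf (Real.log N ^ A) χ → PE E j (χ.1 * n + χ.2) →
          ¬ (2 : ℤ) ∣ χ.1 * n + χ.2 := fun j χ hj hχ => by
        refine odd_of_PE (fun p hp => ⟨hE'.prime p hp, (Real.log_le_iff_le_exp
          (by exact_mod_cast (hE'.prime p hp).pos)).mpr (hE'.hi p hp)⟩) (fun t => ?_) ?_
        · have := hE'.lo 2 t
          rw [pow_zero] at g5
          push_cast at this
          linarith only [this, g5]
        · have a := (TB_size hχ.1 hχ.2.1 hχ.2.2.1 g4 (n := n) (by linarith only [B1, n3])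
            (by linarith only [B1, n4])).1
          have b := Real.log_le_log (by linarith only [x0, xN]) a
          rw [Real.log_div (by linarith only [x0, xN] : 0 < (N : ℝ)).ne' two_ne_zero] at b
          have d := mul_le_mul_of_nonneg_right ((Nat.cast_le (α := ℝ)).2 hj) q0
          linarith only [b, d, g6, q1, kq, Real.log_two_lt_d9]
      have m : (n % 2).toNat ∈ range 2 := mem_range.2 (by omega)
      rw [← e1] at m
      have m3 := (mem_filter.1 m).2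
      rw [Int.toNat_of_nonneg (Int.emod_nonneg _ two_ne_zero), Nat.cast_ofNat] at m3
      have m4 := ((((Int.mod_modEq n 2).mul_left _).add_right _).mul
        (((Int.mod_modEq n 2).mul_left _).add_right _)).dvd_iff.1 m3
      rcases Int.prime_two.dvd_or_dvd m4 with t | t
      exacts [od 0 φ (Nat.zero_le k) (pf φ h) k1.1 t, od k ψ le_rfl (pf ψ u1) k1.2 t]
    have S1 := Sz_ge hL adm (hL.a1_le.trans hz.1) (hL.a2_le.trans hz.1)
    rw [← hc0] at S1
    have S0 := (le_mul_of_one_le_right c00.le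
      (one_le_mul_of_one_le_of_one_le (Wt_ge hL.a1_pos) (Wt_ge hL.a2_pos))).trans S1
    have Sh := TB_shift (fun n => PE E 0 (φ.1 * n + φ.2) ∧ PE E k (ψ.1 * n + ψ.2)) (N - 1) (M - 1)
      N (2 * N)
    have s1 : |((N - 1 - N : ℤ) : ℝ)| + |((M - 1 - 2 * N : ℤ) : ℝ)| ≤ 3 := by
      have : |(N - 1 - N : ℤ)| + |(M - 1 - 2 * N : ℤ)| ≤ 3 := by
        rw [abs_of_nonpos (by omega), abs_of_nonpos (by omega)]; omega
      exact_mod_cast this
    have Sh2 := mul_le_mul_of_nonneg_right (Sh.trans s1) (sq_nonneg (Real.log N))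
    rw [← abs_of_nonneg (sq_nonneg (Real.log N)), ← abs_mul, sub_mul,
      abs_of_nonneg (sq_nonneg (Real.log N))] at Sh2
    have e0 := (κ0.trans_le he).le
    refine TB_fin2 (by linarith only [L2]) lL Ll x0.le xN Nx e0 c2 c1 (c00.le.trans S0)
      (Nat.cast_nonneg _) δ0.le δ1 δ2 ((abs_sub_le _ _ _).trans ((add_le_add Sh2 T).trans ?_))
    rw [div_mul_eq_mul_div, div_le_iff₀ (by positivity)] at g
    have Nn : (0 : ℝ) ≤ N := Nat.cast_nonneg N
    have u1 := mul_le_mul_of_nonneg_left (mul_le_mul he S0 c00.le e0) (mul_nonneg Nn δ0.le)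
    have u2 := mul_le_mul_of_nonneg_left (add_le_add (mul_le_of_le_one_left (c00.le.trans S0) c01) S0)
      (mul_nonneg δ0.le (mul_nonneg Nn e0))
    have u3 := mul_le_mul_of_nonneg_left S1 (mul_nonneg δ0.le (mul_nonneg Nn e0))
    rw [show ek E 0 = 1 from esym_zero _ _] at u1 u2 u3 ⊢
    linarith only [g, u1, u2, u3]
  have a : (S.card : ℝ) ≤ (S.erase φ).card + 1 := by
    exact_mod_cast (by have := pred_card_le_card_erase (s := S) (a := φ); omega :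
      S.card ≤ (S.erase φ).card + 1)
  have e0 := ek_nonneg E k
  have b := pow_le_pow_left₀ (by linarith only [L2, lL]) Ll2 2
  have d := mul_le_mul_of_nonneg_left a (mul_nonneg (sq_nonneg ε) e0)
  have e := mul_le_of_le_one_left e0 (pow_le_one₀ (n := 2) hε.le ε1)
  rw [hδ, hc0] at F
  linarith only [F, b, d, e, G, sq_nonneg (Real.log x)]

end Pool.Agent.Work.MP_d018b2_nt.Z
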